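import Pool.Agent.Lib.MP_4ba111_an.Defs

/-! Definitions for the positive exponents. -/

set_option autoImplicit false

open MeasureTheory Filter Topology

namespace MP4ba111

/-- `α` has very good rational approximations: for each `k` there is a fraction `a / b` in lowest
terms, `b ≥ k`, with `0 < |α - a / b| < exp (- b ^ k)`. -/
def HL (α : ℝ) : Prop :=
  ∀ k : ℕ, ∃ a b : ℕ, k ≤ b ∧ 1 ≤ b ∧ a.Coprime b ∧ α ≠ (a : ℝ) / b ∧
    |α - (a : ℝ) / b| < Real.exp (-(b : ℝ) ^ k)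

/-- The numbers `s 1, s 2, …` are linearly independent over the rationals. -/
def Indep (s : ℕ → ℝ) : Prop :=
  ∀ (N : ℕ) (c : ℕ → ℤ), ∑ n ∈ Finset.Icc 1 N, (c n : ℝ) * s n = 0 → ∀ n ∈ Finset.Icc 1 N, c n = 0

end MP4ba111
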