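import Pool.Agent.Lib.MP_4ba111_anH.HDefs

/-! An explicit example. -/

set_option autoImplicit false

open MeasureTheory Filter Topology

namespace MP4ba111

/-- `e 0 = 1`, `e (k + 1) = 4 ^ ((k + 1) * e k)`. -/
def eseq : ℕ → ℕ
  | 0 => 1
  | k + 1 => 4 ^ ((k + 1) * eseq k)

/-- An explicit number with very good rational approximations. -/
noncomputable def alphaEx : ℝ := ∑' k, (1 / 2 : ℝ) ^ eseq k

theorem hex_lt (k : ℕ) : eseq k < eseq (k + 1) := by
  have h1 : (k + 1) * eseq k < 4 ^ ((k + 1) * eseq k) := Nat.lt_pow_self (by norm_num)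
  have h2 : eseq k ≤ (k + 1) * eseq k := Nat.le_mul_of_pos_left _ (Nat.succ_pos k)
  show eseq k < 4 ^ ((k + 1) * eseq k)
  omega

theorem hex_add (m j : ℕ) : eseq m + j ≤ eseq (m + j) := by
  induction j with
  | zero => simp
  | succ j ih =>
    have h := hex_lt (m + j)
    have h2 : m + (j + 1) = m + j + 1 := by ring
    rw [h2]
    omega

theorem hex_ge (k : ℕ) : k + 1 ≤ eseq k := by
  have h := hex_add 0 k
  have h0 : eseq 0 = 1 := rfl
  rw [h0, Nat.zero_add] at h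
  omega

theorem hex_summable : Summable (fun k => (1 / 2 : ℝ) ^ eseq k) := by
  refine Summable.of_nonneg_of_le (fun k => by positivity) (fun k => ?_)
    (summable_geometric_of_lt_one (by norm_num : (0 : ℝ) ≤ 1 / 2) (by norm_num))
  have h := hex_ge k
  exact pow_le_pow_of_le_one (by norm_num) (by norm_num) (by omega)

theorem hex_tail (m : ℕ) : ∑' j, (1 / 2 : ℝ) ^ eseq (j + m) ≤ 2 * (1 / 2 : ℝ) ^ eseq m := by
  have hg : HasSum (fun j : ℕ => (1 / 2 : ℝ) ^ eseq m * (1 / 2 : ℝ) ^ j)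
      ((1 / 2 : ℝ) ^ eseq m * 2) := by
    have := hasSum_geometric_two.mul_left ((1 / 2 : ℝ) ^ eseq m)
    simpa using this
  have hs : Summable (fun j => (1 / 2 : ℝ) ^ eseq (j + m)) :=
    (summable_nat_add_iff m).2 hex_summable
  have h : ∑' j, (1 / 2 : ℝ) ^ eseq (j + m) ≤ (1 / 2 : ℝ) ^ eseq m * 2 := by
    rw [← hg.tsum_eq]
    refine Summable.tsum_le_tsum (fun j => ?_) hs hg.summable
    rw [← pow_add]
    have h1 := hex_add m j
    rw [Nat.add_comm m j] at h1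
    exact pow_le_pow_of_le_one (by norm_num) (by norm_num) h1
  linarith

theorem hex_tail_pos (m : ℕ) : 0 < ∑' j, (1 / 2 : ℝ) ^ eseq (j + m) := by
  have hs : Summable (fun j => (1 / 2 : ℝ) ^ eseq (j + m)) :=
    (summable_nat_add_iff m).2 hex_summable
  exact hs.tsum_pos (fun j => by positivity) 0 (by positivity)

theorem hex_split (m : ℕ) :
    alphaEx = ∑ j ∈ Finset.range m, (1 / 2 : ℝ) ^ eseq j + ∑' j, (1 / 2 : ℝ) ^ eseq (j + m) :=
  (hex_summable.sum_add_tsum_nat_add m).symm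

theorem hex_mono {i j : ℕ} (h : i ≤ j) : eseq i ≤ eseq j := by
  have h1 := hex_add i (j - i)
  rw [Nat.add_sub_cancel' h] at h1
  omega

theorem hex_frac (k : ℕ) :
    ((∑ j ∈ Finset.range (k + 1), 2 ^ (eseq k - eseq j) : ℕ) : ℝ) / ((2 ^ eseq k : ℕ) : ℝ)
      = ∑ j ∈ Finset.range (k + 1), (1 / 2 : ℝ) ^ eseq j := by
  push_cast
  rw [Finset.sum_div]
  refine Finset.sum_congr rfl (fun j hj => ?_)
  have hj' : eseq j ≤ eseq k := hex_mono (Nat.lt_succ_iff.1 (Finset.mem_range.1 hj))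
  have h2 : (2 : ℝ) ^ eseq k = 2 ^ (eseq k - eseq j) * 2 ^ eseq j := by
    rw [← pow_add, Nat.sub_add_cancel hj']
  rw [h2, one_div_pow]
  field_simp

theorem hex_odd (k : ℕ) : Odd (∑ j ∈ Finset.range (k + 1), 2 ^ (eseq k - eseq j)) := by
  rw [Finset.sum_range_succ, Nat.sub_self, pow_zero]
  refine Even.add_one ?_
  refine Finset.even_sum _ (fun j hj => ?_)
  have h1 : eseq (j + 1) ≤ eseq k := hex_mono (Finset.mem_range.1 hj)
  have h2 := hex_lt j
  exact (Nat.even_pow.2 ⟨even_two, by omega⟩)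

theorem hex_exp (N : ℕ) (hN : 1 ≤ N) : (1 / 2 : ℝ) ^ (2 * N) < Real.exp (-(N : ℝ)) := by
  have h1 : Real.exp (-(N : ℝ)) = Real.exp (-1) ^ N := by
    rw [← Real.exp_nat_mul]
    congr 1
    ring
  rw [h1, pow_mul]
  have h2 : (1 / 2 : ℝ) ^ 2 < Real.exp (-1) := by
    have := Real.exp_neg_one_gt_d9
    norm_num at this ⊢
    linarith
  exact pow_lt_pow_left₀ h2 (by norm_num) (by omega)

theorem hex_size (k : ℕ) : 2 * (2 ^ eseq k) ^ k + 1 ≤ eseq (k + 1) := by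
  have hE := hex_ge k
  have h1 : eseq (k + 1) = 2 ^ (2 * ((k + 1) * eseq k)) := by
    show 4 ^ ((k + 1) * eseq k) = 2 ^ (2 * ((k + 1) * eseq k))
    rw [pow_mul 2 2 ((k + 1) * eseq k)]
    norm_num
  have h2 : (2 ^ eseq k) ^ k = 2 ^ (eseq k * k) := (pow_mul 2 (eseq k) k).symm
  rw [h1, h2]
  have h3 : eseq k * k + 2 ≤ 2 * ((k + 1) * eseq k) := by nlinarith
  have h4 : 2 ^ (eseq k * k + 2) ≤ 2 ^ (2 * ((k + 1) * eseq k)) :=
    Nat.pow_le_pow_right (by norm_num) h3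
  have h5 : 1 ≤ 2 ^ (eseq k * k) := Nat.one_le_two_pow
  rw [pow_add] at h4
  omega

/-- PROOF. `eseq k ≥ k + 1` and `eseq` is strictly increasing, so the series converges and
`0 < ∑_{j > k} 2 ^ (- eseq j) ≤ 2 * 2 ^ (- eseq (k + 1))`. For given `k` take `b = 2 ^ (eseq k)`,
`a = ∑_{j ≤ k} 2 ^ (eseq k - eseq j)`, odd (the term `j = k` is `1`, all others are even), so coprime to
`b`; `b ≥ k`; `0 < α - a / b ≤ 2 * 2 ^ (- eseq (k + 1)) < exp (- b ^ k)`, as
`(eseq (k + 1) - 1) * log 2 > 2 ^ (k * eseq k)`: `eseq (k + 1) = 2 ^ (2 (k + 1) eseq k) ≥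
4 * 2 ^ (k * eseq k)` and `log 2 > 1/2`. -/
theorem hl_alphaEx : HL alphaEx := by
  intro k
  refine ⟨∑ j ∈ Finset.range (k + 1), 2 ^ (eseq k - eseq j), 2 ^ eseq k, ?_, ?_, ?_, ?_, ?_⟩
  · have h1 := hex_ge k
    have h2 : eseq k < 2 ^ eseq k := Nat.lt_two_pow_self
    omega
  · exact Nat.one_le_two_pow
  · exact Nat.Coprime.pow_right _ (hex_odd k).coprime_two_right
  · rw [hex_frac, hex_split (k + 1)]
    have h := hex_tail_pos (k + 1)
    intro h'
    linarith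
  · rw [hex_frac, hex_split (k + 1)]
    have h := hex_tail_pos (k + 1)
    have ht := hex_tail (k + 1)
    rw [add_sub_cancel_left, abs_of_pos h]
    have hN : 1 ≤ (2 ^ eseq k) ^ k := Nat.one_le_pow _ _ (by positivity)
    have h3 := hex_exp ((2 ^ eseq k) ^ k) hN
    have h4 := hex_size k
    have h5 : (1 / 2 : ℝ) ^ eseq (k + 1) ≤ (1 / 2 : ℝ) ^ (2 * (2 ^ eseq k) ^ k + 1) :=
      pow_le_pow_of_le_one (by norm_num) (by norm_num) h4
    rw [pow_succ] at h5
    have h6 : (((2 ^ eseq k) ^ k : ℕ) : ℝ) = (((2 ^ eseq k : ℕ) : ℝ)) ^ k := by push_cast; rfl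
    rw [h6] at h3
    linarith

theorem alphaEx_pos : 0 < alphaEx := by
  have h := hex_split 0
  have h2 := hex_tail_pos 0
  rw [Finset.range_zero, Finset.sum_empty, zero_add] at h
  rw [h]
  exact h2

end MP4ba111
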