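import Pool.Agent.Lib.MP_4ba111_anH.HDefs

/-! Real analysis for the exponential sum. -/

set_option autoImplicit false

open MeasureTheory Filter Topology

namespace MP4ba111

private lemma hlip_exp_aux {a b : ℝ} (h : b ≤ a) :
    |Real.exp a - Real.exp b| ≤ |a - b| * Real.exp a := by
  have h1 : Real.exp b = Real.exp a * Real.exp (b - a) := by
    rw [← Real.exp_add, add_sub_cancel]
  have h2 := Real.add_one_le_exp (b - a)
  have h3 := Real.exp_pos a
  rw [abs_of_nonneg (by linarith [Real.exp_le_exp.2 h]), abs_of_nonneg (by linarith), h1]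
  nlinarith

private lemma hlip_exp {a b M : ℝ} (ha : a ≤ M) (hb : b ≤ M) :
    |Real.exp a - Real.exp b| ≤ |a - b| * Real.exp M := by
  rcases le_total b a with h | h
  · exact (hlip_exp_aux h).trans
      (mul_le_mul_of_nonneg_left (Real.exp_le_exp.2 ha) (abs_nonneg _))
  · rw [abs_sub_comm, abs_sub_comm a b]
    exact (hlip_exp_aux h).trans
      (mul_le_mul_of_nonneg_left (Real.exp_le_exp.2 hb) (abs_nonneg _))

/-- PROOF. `x ↦ ∑ c n * n ^ x` is continuously differentiable (`n ^ x = exp (x log n)`, `n ≥ 1`), so it is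
Lipschitz on the compact interval `[α - 1, α + 1]`. -/
theorem exp_lip (N : ℕ) (c : ℕ → ℤ) (α : ℝ) : ∃ D : ℝ, 0 ≤ D ∧ ∀ x : ℝ, |α - x| ≤ 1 →
    |∑ n ∈ Finset.Icc 1 N, (c n : ℝ) * (n : ℝ) ^ α - ∑ n ∈ Finset.Icc 1 N, (c n : ℝ) * (n : ℝ) ^ x| ≤
      D * |α - x| := by
  refine ⟨∑ n ∈ Finset.Icc 1 N, |(c n : ℝ)| * (Real.log n * Real.exp (Real.log n * (|α| + 1))),
    ?_, ?_⟩
  · refine Finset.sum_nonneg fun n hn => ?_
    have hn1 : (1 : ℝ) ≤ n := by exact_mod_cast (Finset.mem_Icc.1 hn).1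
    have := Real.log_nonneg hn1
    positivity
  · intro x hx
    rw [← Finset.sum_sub_distrib, Finset.sum_mul]
    refine (Finset.abs_sum_le_sum_abs _ _).trans (Finset.sum_le_sum fun n hn => ?_)
    have hn1 : (1 : ℝ) ≤ n := by exact_mod_cast (Finset.mem_Icc.1 hn).1
    have hn0 : (0 : ℝ) < n := by linarith
    have hL := Real.log_nonneg hn1
    rw [← mul_sub, abs_mul, mul_assoc]
    refine mul_le_mul_of_nonneg_left ?_ (abs_nonneg _)
    rw [Real.rpow_def_of_pos hn0, Real.rpow_def_of_pos hn0]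
    have h1 : α ≤ |α| + 1 := by linarith [le_abs_self α]
    have h2 : x ≤ |α| + 1 := by
      have := (abs_le.1 hx).1
      linarith [le_abs_self α]
    have h3 := hlip_exp (mul_le_mul_of_nonneg_left h1 hL) (mul_le_mul_of_nonneg_left h2 hL)
    rw [← mul_sub, abs_mul, abs_of_nonneg hL] at h3
    calc |Real.exp (Real.log n * α) - Real.exp (Real.log n * x)|
        ≤ Real.log n * |α - x| * Real.exp (Real.log n * (|α| + 1)) := h3
      _ = Real.log n * Real.exp (Real.log n * (|α| + 1)) * |α - x| := by ring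

/-- PROOF. Take `k0 ≥ N + 1` with `2 ^ (k0 - N) ≥ log C + log (D + 1) + 1`; for `k ≥ k0` and `b ≥ 2`,
`b ^ k ≥ b ^ N * 2 ^ (k - N) ≥ b ^ N * (log C + log (D + 1) + 1) > log (D * C ^ (b ^ N))` (if `D > 0`). -/
theorem exp_beats (N : ℕ) {C D : ℝ} (hC : 1 ≤ C) (hD : 0 ≤ D) : ∃ k0 : ℕ, ∀ k b : ℕ, k0 ≤ k → 2 ≤ b →
    D * Real.exp (-(b : ℝ) ^ k) * C ^ (b ^ N) < 1 := by
  obtain ⟨j, hj⟩ := pow_unbounded_of_one_lt (Real.log C + Real.log (D + 1) + 1)
    (show (1 : ℝ) < 2 by norm_num)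
  refine ⟨N + j, fun k b hk hb => ?_⟩
  have hb1 : (1 : ℝ) ≤ b := by
    have : 1 ≤ b := by omega
    exact_mod_cast this
  have hb2 : (2 : ℝ) ≤ b := by exact_mod_cast hb
  have hbN : (1 : ℝ) ≤ (b : ℝ) ^ N := one_le_pow₀ hb1
  have hlC : 0 ≤ Real.log C := Real.log_nonneg hC
  have hlD : 0 ≤ Real.log (D + 1) := Real.log_nonneg (by linarith)
  have hbk : (b : ℝ) ^ N * (Real.log C + Real.log (D + 1) + 1) ≤ (b : ℝ) ^ k := by
    have h1 : (b : ℝ) ^ k = (b : ℝ) ^ N * (b : ℝ) ^ (k - N) := by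
      rw [← pow_add]
      congr 1
      omega
    rw [h1]
    refine mul_le_mul_of_nonneg_left (hj.le.trans ?_) (by linarith)
    calc (2 : ℝ) ^ j ≤ (2 : ℝ) ^ (k - N) := pow_le_pow_right₀ (by norm_num) (by omega)
      _ ≤ (b : ℝ) ^ (k - N) := pow_le_pow_left₀ (by norm_num) hb2 _
  have hCp : C ^ (b ^ N) = Real.exp ((b : ℝ) ^ N * Real.log C) := by
    have h2 : (C : ℝ) = Real.exp (Real.log C) := (Real.exp_log (by linarith)).symm
    conv_lhs => rw [h2]
    rw [← Real.exp_nat_mul]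
    push_cast
    rfl
  have hDp : D ≤ Real.exp ((b : ℝ) ^ N * Real.log (D + 1)) := by
    calc D ≤ D + 1 := by linarith
      _ = Real.exp (Real.log (D + 1)) := (Real.exp_log (by linarith)).symm
      _ ≤ Real.exp ((b : ℝ) ^ N * Real.log (D + 1)) := by
          refine Real.exp_le_exp.2 ?_
          nlinarith
  rw [hCp]
  calc D * Real.exp (-(b : ℝ) ^ k) * Real.exp ((b : ℝ) ^ N * Real.log C)
      ≤ Real.exp ((b : ℝ) ^ N * Real.log (D + 1)) * Real.exp (-(b : ℝ) ^ k) *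
        Real.exp ((b : ℝ) ^ N * Real.log C) := by gcongr
    _ = Real.exp ((b : ℝ) ^ N * Real.log (D + 1) + -(b : ℝ) ^ k + (b : ℝ) ^ N * Real.log C) := by
        rw [Real.exp_add, Real.exp_add]
    _ < 1 := by
        rw [Real.exp_lt_one_iff]
        nlinarith

end MP4ba111
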