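import Pool.Agent.Lib.MP_4ba111_anH.NormA

/-! Liouville inequality for sums of radicals. -/

set_option autoImplicit false

open Filter Topology

namespace MP4ba111

open Polynomial

theorem normb_prod_le (s : Multiset ℂ) {C : ℝ} (hC : 1 ≤ C) (h : ∀ z ∈ s, ‖z‖ ≤ C) :
    ‖s.prod‖ ≤ C ^ (Multiset.card s) := by
  induction s using Multiset.induction with
  | empty => simp
  | cons z s ih =>
    rw [Multiset.prod_cons, norm_mul, Multiset.card_cons, pow_succ, mul_comm]
    have h1 := ih fun x hx => h x (Multiset.mem_cons_of_mem hx)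
    have h2 := h z (Multiset.mem_cons_self z s)
    exact mul_le_mul h1 h2 (norm_nonneg _) (by positivity)

/-- PROOF. `β = ∑ c n y n ^ a` is integral over `ℤ` (each `y n` is), so the constant coefficient of its
minimal polynomial `P` over `ℚ` is an integer (`minpoly.isIntegrallyClosed_eq_field_fractions'`), not
`0` as `β ≠ 0`; its absolute value is the product of the `‖z‖` over the complex roots `z` of `P`. One
root is `β`; each root satisfies `‖z‖ ≤ ∑ |c n| |y n| ^ a ≤ C` (`conj_form`, `‖w n‖ = |y n|` as both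
`b`-th powers are `n`). So `1 ≤ |β| * C ^ (deg P - 1) ≤ |β| * C ^ (b ^ N)` as `C ≥ 1`. -/
theorem norm_bound {N : ℕ} {b : ℕ} (hb : 1 ≤ b) {y : ℕ → ℝ}
    (hy : ∀ n ∈ Finset.Icc 1 N, y n ^ b = n) (c : ℕ → ℤ) (a : ℕ) {C : ℝ} (hC1 : 1 ≤ C)
    (hC : ∑ n ∈ Finset.Icc 1 N, |(c n : ℝ)| * |y n| ^ a ≤ C)
    (h0 : ∑ n ∈ Finset.Icc 1 N, (c n : ℝ) * y n ^ a ≠ 0) :
    1 ≤ |∑ n ∈ Finset.Icc 1 N, (c n : ℝ) * y n ^ a| * C ^ (b ^ N) := by
  classical
  set β : ℝ := ∑ n ∈ Finset.Icc 1 N, (c n : ℝ) * y n ^ a with hβ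
  have hC0 : 0 ≤ C := by linarith
  have hyint : ∀ n ∈ Finset.Icc 1 N, IsIntegral ℤ (y n) := by
    intro n hn
    refine IsIntegral.of_pow (n := b) (by omega) ?_
    rw [hy n hn]
    exact isIntegral_algebraMap (R := ℤ) (A := ℝ) (x := (n : ℤ)) |> fun h => by simpa using h
  have hint : IsIntegral ℤ β := by
    refine IsIntegral.sum _ fun n hn => IsIntegral.mul ?_ ((hyint n hn).pow a)
    exact isIntegral_algebraMap (R := ℤ) (A := ℝ) (x := c n) |> fun h => by simpa using h
  have hintQ : IsIntegral ℚ β := hint.tower_top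
  set P : ℚ[X] := minpoly ℚ β with hP
  have hPZ : P = (minpoly ℤ β).map (algebraMap ℤ ℚ) :=
    minpoly.isIntegrallyClosed_eq_field_fractions' ℚ hint
  set Q : ℂ[X] := P.map (algebraMap ℚ ℂ) with hQ
  have hPm : P.Monic := minpoly.monic hintQ
  have hQm : Q.Monic := hPm.map _
  have hsp : Q.Splits := IsAlgClosed.splits Q
  have hcoef := hsp.coeff_zero_eq_prod_roots_of_monic hQm
  -- the constant coefficient
  have hc0 : Q.coeff 0 = (((minpoly ℤ β).coeff 0 : ℤ) : ℂ) := by
    rw [hQ, hPZ, coeff_map, coeff_map]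
    simp
  have hne : (minpoly ℤ β).coeff 0 ≠ 0 := by
    intro h1
    have h2 : P.coeff 0 = 0 := by
      rw [hPZ, coeff_map, h1, map_zero]
    exact h0 ((minpoly.coeff_zero_eq_zero hintQ).1 h2)
  have hge : 1 ≤ ‖Q.coeff 0‖ := by
    rw [hc0, Complex.norm_intCast]
    exact_mod_cast Int.one_le_abs hne
  -- the roots
  have hroot : ∀ z ∈ Q.roots, ‖z‖ ≤ C := by
    intro z hz
    have hz1 : aeval z (minpoly ℚ (∑ n ∈ Finset.Icc 1 N, (c n : ℝ) * y n ^ a)) = 0 := by
      have h1 := (mem_roots hQm.ne_zero).1 hz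
      rw [IsRoot.def, hQ, eval_map_algebraMap] at h1
      exact h1
    obtain ⟨w, hw, hzw⟩ := conj_form hb hy c a hz1
    rw [hzw]
    refine (norm_sum_le _ _).trans (le_trans (Finset.sum_le_sum fun n hn => ?_) hC)
    rw [norm_mul, norm_pow, Complex.norm_intCast]
    have h2 : ‖w n‖ ^ b = |y n| ^ b := by
      rw [← norm_pow, hw n hn, ← abs_pow, hy n hn]
      simp
    have h3 : ‖w n‖ = |y n| :=
      (pow_left_inj₀ (norm_nonneg _) (abs_nonneg _) (by omega)).1 h2
    rw [h3]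
  have hβroot : (β : ℂ) ∈ Q.roots := by
    rw [mem_roots hQm.ne_zero, IsRoot.def, hQ, eval_map_algebraMap]
    have h1 : aeval β P = 0 := minpoly.aeval ℚ β
    have h2 : aeval (algebraMap ℝ ℂ β) P = algebraMap ℝ ℂ (aeval β P) :=
      aeval_algebraMap_apply ℂ β P
    rw [h1, map_zero] at h2
    exact h2
  have hcard : Multiset.card Q.roots = P.natDegree := by
    rw [← hsp.natDegree_eq_card_roots, hQ, natDegree_map]
  have hdeg : P.natDegree ≤ b ^ N := deg_le hb hy c a
  have hprod : Q.roots.prod = (β : ℂ) * (Q.roots.erase (β : ℂ)).prod := by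
    conv_lhs => rw [← Multiset.cons_erase hβroot]
    rw [Multiset.prod_cons]
  have hle := normb_prod_le (Q.roots.erase (β : ℂ)) hC1 fun z hz =>
    hroot z (Multiset.mem_of_mem_erase hz)
  calc (1 : ℝ) ≤ ‖Q.coeff 0‖ := hge
    _ = |β| * ‖(Q.roots.erase (β : ℂ)).prod‖ := by
        rw [hcoef, hprod, norm_mul, norm_pow, norm_neg, norm_one, one_pow, one_mul, norm_mul,
          Complex.norm_real, Real.norm_eq_abs]
    _ ≤ |β| * C ^ (Multiset.card (Q.roots.erase (β : ℂ))) :=
        mul_le_mul_of_nonneg_left hle (abs_nonneg _)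
    _ ≤ |β| * C ^ (b ^ N) := by
        refine mul_le_mul_of_nonneg_left (pow_le_pow_right₀ hC1 ?_) (abs_nonneg _)
        refine le_trans (Multiset.card_le_card (Multiset.erase_le _ _)) ?_
        rw [hcard]
        exact hdeg

end MP4ba111
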