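import Pool.Agent.Lib.MP_4ba111_anH.HDefs

/-! Ratios of radicals are irrational. -/

set_option autoImplicit false

open MeasureTheory Filter Topology

namespace MP4ba111

/-- PROOF. If the quotient is `q` then `(n / m) ^ a = q ^ b` (in `ℝ`, so in `ℚ`; `a` power of
`Real.rpow`: `((n : ℝ) ^ ((a : ℝ) / b)) ^ b = n ^ a`). For every prime `p`,
`a * (v_p n - v_p m) = b * v_p q` (`padicValRat`), so `b ∣ v_p n - v_p m` as `a`, `b` are coprime; as
`|v_p n - v_p m| < b` (`v_p n ≤ log_2 n < n ≤ b`) they are equal. So `n = m`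
(`Nat.eq_of_factorization_eq`). -/
theorem ratio_irr {n m a b : ℕ} (hn : 1 ≤ n) (hm : 1 ≤ m) (hnb : n ≤ b) (hmb : m ≤ b)
    (hab : a.Coprime b) (hne : n ≠ m) (q : ℚ) :
    (n : ℝ) ^ ((a : ℝ) / b) / (m : ℝ) ^ ((a : ℝ) / b) ≠ q := by
  intro hq
  have hn0 : (0 : ℝ) < n := by exact_mod_cast hn
  have hm0 : (0 : ℝ) < m := by exact_mod_cast hm
  have hb : 1 ≤ b := le_trans hn hnb
  have hb0 : (b : ℝ) ≠ 0 := by positivity
  have e1 : ((n : ℝ) ^ ((a : ℝ) / b)) ^ b = (n : ℝ) ^ a := by
    rw [← Real.rpow_natCast, ← Real.rpow_mul hn0.le, div_mul_cancel₀ _ hb0, Real.rpow_natCast]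
  have e2 : ((m : ℝ) ^ ((a : ℝ) / b)) ^ b = (m : ℝ) ^ a := by
    rw [← Real.rpow_natCast, ← Real.rpow_mul hm0.le, div_mul_cancel₀ _ hb0, Real.rpow_natCast]
  have e3 : (q : ℝ) ^ b * (m : ℝ) ^ a = (n : ℝ) ^ a := by
    rw [← hq, div_pow, e1, e2, div_mul_cancel₀]
    positivity
  have e4 : q ^ b * (m : ℚ) ^ a = (n : ℚ) ^ a := by exact_mod_cast e3
  have hnQ : (n : ℚ) ≠ 0 := by positivity
  have hmQ : (m : ℚ) ≠ 0 := by positivity
  have hq0 : q ≠ 0 := by
    rintro rfl
    rw [zero_pow (by omega), zero_mul] at e4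
    exact pow_ne_zero a hnQ e4.symm
  apply hne
  apply Nat.eq_of_factorization_eq (by omega) (by omega)
  intro p
  by_cases hp : p.Prime
  · have := Fact.mk hp
    have h1 := congrArg (padicValRat p) e4
    rw [padicValRat.mul (pow_ne_zero _ hq0) (pow_ne_zero _ hmQ), padicValRat.pow,
      padicValRat.pow, padicValRat.pow, padicValRat.of_nat, padicValRat.of_nat] at h1
    have h2 : (b : ℤ) ∣ a * ((padicValNat p n : ℤ) - padicValNat p m) :=
      ⟨padicValRat p q, by linarith⟩
    have h3 : (b : ℤ) ∣ (padicValNat p n : ℤ) - padicValNat p m :=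
      IsCoprime.dvd_of_dvd_mul_left (Nat.isCoprime_iff_coprime.2 hab.symm) h2
    have h4 : padicValNat p n < b := by
      have : padicValNat p n < n := by
        rw [← Nat.factorization_def _ hp]
        exact Nat.factorization_lt p (by omega)
      omega
    have h5 : padicValNat p m < b := by
      have : padicValNat p m < m := by
        rw [← Nat.factorization_def _ hp]
        exact Nat.factorization_lt p (by omega)
      omega
    have h6 : (padicValNat p n : ℤ) - padicValNat p m = 0 := by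
      apply Int.eq_zero_of_abs_lt_dvd h3
      rw [abs_lt]
      constructor <;> omega
    rw [Nat.factorization_def _ hp, Nat.factorization_def _ hp]
    omega
  · rw [Nat.factorization_eq_zero_of_not_prime _ hp, Nat.factorization_eq_zero_of_not_prime _ hp]

end MP4ba111
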