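import Pool.Agent.Lib.MP_4ba111_anH.RadB
import Pool.Agent.Lib.MP_4ba111_anH.Ratio
import Pool.Agent.Lib.MP_4ba111_anH.NormB
import Pool.Agent.Lib.MP_4ba111_anH.HLip

/-! Linear independence. -/

set_option autoImplicit false

open MeasureTheory Filter Topology

namespace MP4ba111

/-- PROOF. Let `∑_{n ≤ N} c n n ^ α = 0`. `D` from `exp_lip`; `C = 1 + ∑ |c n| n ^ (α + 1)`; `k0` from
`exp_beats`; take `k ≥ k0, N + 2`, and `a, b` from `hα k`, so `b ≥ k ≥ 2`, `|α - a / b| < 1`. With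
`y n = n ^ (1 / b)` we have `y n ^ a = n ^ (a / b)`, `∑ |c n| |y n| ^ a ≤ C` as `a / b ≤ α + 1`. If
`F = ∑ c n n ^ (a / b) ≠ 0` then `1 ≤ |F| C ^ (b ^ N)` (`norm_bound`) and
`|F| = |F - 0| ≤ D |α - a / b| ≤ D exp (- b ^ k)`, against `exp_beats`. So `F = 0`, and `radicals` with
`x n = n ^ (a / b)` (`ratio_irr`, `N ≤ b`) gives `c = 0`. -/
theorem indep_of_HL {α : ℝ} (hα : HL α) : Indep (fun n : ℕ => (n : ℝ) ^ α) := by
  intro N c h0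
  obtain ⟨D, hD0, hD⟩ := exp_lip N c α
  obtain ⟨C, hCdef⟩ : ∃ C : ℝ, C = 1 + ∑ n ∈ Finset.Icc 1 N, |(c n : ℝ)| * (n : ℝ) ^ (α + 1) :=
    ⟨_, rfl⟩
  have hsum0 : 0 ≤ ∑ n ∈ Finset.Icc 1 N, |(c n : ℝ)| * (n : ℝ) ^ (α + 1) :=
    Finset.sum_nonneg fun n _ => mul_nonneg (abs_nonneg _) (Real.rpow_nonneg (Nat.cast_nonneg n) _)
  have hC1 : 1 ≤ C := by rw [hCdef]; linarith
  obtain ⟨k0, hk0⟩ := exp_beats N hC1 hD0
  obtain ⟨k, hk⟩ : ∃ k : ℕ, k = max k0 (N + 2) := ⟨_, rfl⟩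
  have hkk0 : k0 ≤ k := by rw [hk]; exact le_max_left _ _
  have hkN : N + 2 ≤ k := by rw [hk]; exact le_max_right _ _
  obtain ⟨a, b, hkb, hb1, hab, _, hlt⟩ := hα k
  have hb2 : 2 ≤ b := by omega
  have hbR : (0 : ℝ) < b := by exact_mod_cast (by omega : 0 < b)
  have hbne : b ≠ 0 := by omega
  have h1 : |α - (a : ℝ) / b| ≤ 1 := by
    refine hlt.le.trans ?_
    rw [Real.exp_le_one_iff]
    have : (0 : ℝ) ≤ (b : ℝ) ^ k := by positivity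
    linarith
  have hab1 : (a : ℝ) / b ≤ α + 1 := by
    have := (abs_le.1 h1).1
    linarith
  have hy : ∀ n ∈ Finset.Icc 1 N, (fun n : ℕ => (n : ℝ) ^ ((b : ℝ)⁻¹)) n ^ b = n := by
    intro n _
    exact Real.rpow_inv_natCast_pow (Nat.cast_nonneg n) hbne
  have hya : ∀ n : ℕ, (fun n : ℕ => (n : ℝ) ^ ((b : ℝ)⁻¹)) n ^ a = (n : ℝ) ^ ((a : ℝ) / b) := by
    intro n
    change ((n : ℝ) ^ ((b : ℝ)⁻¹)) ^ a = (n : ℝ) ^ ((a : ℝ) / b)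
    rw [← Real.rpow_natCast, ← Real.rpow_mul (Nat.cast_nonneg n)]
    congr 1
    rw [div_eq_inv_mul]
  have hpos : ∀ n ∈ Finset.Icc 1 N, (0 : ℝ) < n := by
    intro n hn
    have := (Finset.mem_Icc.1 hn).1
    exact_mod_cast (by omega : 0 < n)
  have hCsum : ∑ n ∈ Finset.Icc 1 N, |(c n : ℝ)| * |(fun n : ℕ => (n : ℝ) ^ ((b : ℝ)⁻¹)) n| ^ a ≤
      C := by
    rw [hCdef]
    have : ∑ n ∈ Finset.Icc 1 N, |(c n : ℝ)| * |(fun n : ℕ => (n : ℝ) ^ ((b : ℝ)⁻¹)) n| ^ a ≤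
        ∑ n ∈ Finset.Icc 1 N, |(c n : ℝ)| * (n : ℝ) ^ (α + 1) := by
      refine Finset.sum_le_sum fun n hn => ?_
      refine mul_le_mul_of_nonneg_left ?_ (abs_nonneg _)
      have hn0 : 0 ≤ (fun n : ℕ => (n : ℝ) ^ ((b : ℝ)⁻¹)) n :=
        Real.rpow_nonneg (Nat.cast_nonneg n) _
      rw [abs_of_nonneg hn0, hya n]
      have hn1 : (1 : ℝ) ≤ n := by exact_mod_cast (Finset.mem_Icc.1 hn).1
      exact Real.rpow_le_rpow_of_exponent_le hn1 hab1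
    linarith
  have hFeq : ∑ n ∈ Finset.Icc 1 N, (c n : ℝ) * (fun n : ℕ => (n : ℝ) ^ ((b : ℝ)⁻¹)) n ^ a =
      ∑ n ∈ Finset.Icc 1 N, (c n : ℝ) * (n : ℝ) ^ ((a : ℝ) / b) :=
    Finset.sum_congr rfl fun n _ => by rw [hya n]
  have hF0 : ∑ n ∈ Finset.Icc 1 N, (c n : ℝ) * (n : ℝ) ^ ((a : ℝ) / b) = 0 := by
    by_contra hF
    have h2 := norm_bound hb1 hy c a hC1 hCsum (by rw [hFeq]; exact hF)
    rw [hFeq] at h2
    have h3 := hD ((a : ℝ) / b) h1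
    have h0' : ∑ n ∈ Finset.Icc 1 N, (c n : ℝ) * (n : ℝ) ^ α = 0 := h0
    rw [h0', zero_sub, abs_neg] at h3
    have h4 := hk0 k b hkk0 hb2
    have h5 : |∑ n ∈ Finset.Icc 1 N, (c n : ℝ) * (n : ℝ) ^ ((a : ℝ) / b)| ≤
        D * Real.exp (-(b : ℝ) ^ k) := h3.trans (mul_le_mul_of_nonneg_left hlt.le hD0)
    have h6 : (0 : ℝ) ≤ C ^ (b ^ N) := by positivity
    have h7 := mul_le_mul_of_nonneg_right h5 h6
    linarith
  have hrad := radicals (I := Finset.Icc 1 N) (x := fun n : ℕ => (n : ℝ) ^ ((a : ℝ) / b))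
    (fun i hi => Real.rpow_pos_of_pos (hpos i hi) _) hb1
    (fun i _ => by
      refine ⟨(i : ℚ) ^ a, ?_⟩
      change ((i : ℝ) ^ ((a : ℝ) / b)) ^ b = ((i : ℚ) ^ a : ℚ)
      rw [← Real.rpow_natCast, ← Real.rpow_mul (Nat.cast_nonneg i), div_mul_cancel₀ _ hbR.ne',
        Real.rpow_natCast]
      push_cast
      rfl)
    (fun i hi j hj hij q => by
      have hi' := Finset.mem_Icc.1 hi
      have hj' := Finset.mem_Icc.1 hj
      exact ratio_irr hi'.1 hj'.1 (by omega) (by omega) hab hij q)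
    hF0
  exact hrad

end MP4ba111
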