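import Pool.Agent.Lib.MP_4ba111_an.Near
import Pool.Agent.Lib.MP_4ba111_anH.HDefs

/-! Periodic sets with an arbitrary period. -/

set_option autoImplicit false

open MeasureTheory Filter Topology

namespace MP4ba111

theorem hscale_unit (d : ℝ) {κ : ℝ} (c : ℝ) :
    volume ({y : ℝ | Int.fract (y + d) < κ} ∩ Set.Icc c (c + 1)) ≤ ENNReal.ofReal κ := by
  have hB : MeasurableSet {y : ℝ | Int.fract (y + d) < κ} :=
    measurableSet_lt (measurable_fract.comp (measurable_id.add_const d)) measurable_const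
  have hp : ∀ r : ℝ, r + 1 ∈ {y : ℝ | Int.fract (y + d) < κ} ↔
      r ∈ {y : ℝ | Int.fract (y + d) < κ} := by
    intro r
    show Int.fract (r + 1 + d) < κ ↔ Int.fract (r + d) < κ
    rw [show r + 1 + d = r + d + 1 by ring, Int.fract_add_one]
  rw [per_window hB hp c, ← per_window hB hp (-d)]
  have hsub : {y : ℝ | Int.fract (y + d) < κ} ∩ Set.Icc (-d) (-d + 1) ⊆
      Set.Icc (-d) (-d + κ) ∪ {-d + 1} := by
    rintro y ⟨hy, hy1, hy2⟩
    have hy' : Int.fract (y + d) < κ := hy
    rcases eq_or_lt_of_le hy2 with h | h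
    · right; exact h
    · left
      rw [Int.fract_eq_self.2 ⟨by linarith, by linarith⟩] at hy'
      exact ⟨hy1, by linarith⟩
  calc volume ({y : ℝ | Int.fract (y + d) < κ} ∩ Set.Icc (-d) (-d + 1))
      ≤ volume (Set.Icc (-d) (-d + κ) ∪ {-d + 1}) := measure_mono hsub
    _ ≤ volume (Set.Icc (-d) (-d + κ)) + volume {-d + 1} := measure_union_le _ _
    _ = ENNReal.ofReal κ := by
        rw [Real.volume_Icc, Real.volume_singleton, add_zero]
        congr 1
        ring

/-- PROOF. The set is the preimage under `x ↦ t * x` of `{y | fract (y + d) < κ} ∩ J` with `J` a closed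
interval of length one (`Real.volume_preimage_mul_left`); `per_window`, and on `[0, 1)` (after the
translation by `d`: choose the window `[-d, 1-d)`, or apply `per_window` with `a = -d`) the set is
`{fract < κ}`, of measure at most `κ`. -/
theorem per_scale {t : ℝ} (ht : t ≠ 0) (d : ℝ) {κ : ℝ} (hκ : 0 ≤ κ) (a : ℝ) :
    volume ({x : ℝ | Int.fract (t * x + d) < κ} ∩ Set.Icc a (a + 1 / |t|)) ≤
      ENNReal.ofReal (κ * (1 / |t|)) := by
  obtain ⟨c, hc⟩ : ∃ c : ℝ, ∀ x ∈ Set.Icc a (a + 1 / |t|), t * x ∈ Set.Icc c (c + 1) := by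
    rcases lt_or_gt_of_ne ht with h | h
    · refine ⟨t * a - 1, fun x hx => ?_⟩
      rw [abs_of_neg h] at hx
      obtain ⟨h1, h2⟩ := hx
      have h3 : t * (a + 1 / -t) ≤ t * x := mul_le_mul_of_nonpos_left h2 h.le
      have h4 : t * x ≤ t * a := mul_le_mul_of_nonpos_left h1 h.le
      have h5 : t * (a + 1 / -t) = t * a - 1 := by
        field_simp
        ring
      exact ⟨by linarith, by linarith⟩
    · refine ⟨t * a, fun x hx => ?_⟩
      rw [abs_of_pos h] at hx
      obtain ⟨h1, h2⟩ := hx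
      have h3 : t * x ≤ t * (a + 1 / t) := mul_le_mul_of_nonneg_left h2 h.le
      have h4 : t * a ≤ t * x := mul_le_mul_of_nonneg_left h1 h.le
      have h5 : t * (a + 1 / t) = t * a + 1 := by
        field_simp
      exact ⟨by linarith, by linarith⟩
  have hsub : {x : ℝ | Int.fract (t * x + d) < κ} ∩ Set.Icc a (a + 1 / |t|) ⊆
      (fun x => t * x) ⁻¹' ({y : ℝ | Int.fract (y + d) < κ} ∩ Set.Icc c (c + 1)) := by
    rintro x ⟨hx1, hx2⟩
    exact ⟨hx1, hc x hx2⟩
  calc volume ({x : ℝ | Int.fract (t * x + d) < κ} ∩ Set.Icc a (a + 1 / |t|))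
      ≤ volume ((fun x => t * x) ⁻¹' ({y : ℝ | Int.fract (y + d) < κ} ∩ Set.Icc c (c + 1))) :=
        measure_mono hsub
    _ = ENNReal.ofReal |t⁻¹| * volume ({y : ℝ | Int.fract (y + d) < κ} ∩ Set.Icc c (c + 1)) :=
        Real.volume_preimage_mul_left ht _
    _ ≤ ENNReal.ofReal |t⁻¹| * ENNReal.ofReal κ := mul_le_mul' le_rfl (hscale_unit d c)
    _ = ENNReal.ofReal (κ * (1 / |t|)) := by
        rw [← ENNReal.ofReal_mul (abs_nonneg _), abs_inv, one_div, mul_comm]

end MP4ba111
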