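import Pool.Agent.Lib.MP_4ba111_anH.Kron
import Pool.Agent.Lib.MP_4ba111_anH.HScale

/-! Linearly independent sequences have the property on the line. -/

set_option autoImplicit false

open MeasureTheory Filter Topology

namespace MP4ba111

private theorem hrp_idx {nb : ℕ → ℕ} (hm : StrictMono nb) :
    ∃ idx : ℕ → ℕ, ∀ k n, nb k < n → n ≤ nb (k + 1) → idx n = k := by
  classical
  refine ⟨fun n => if h : ∃ k, nb k < n ∧ n ≤ nb (k + 1) then Classical.choose h else 0, ?_⟩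
  intro k n h1 h2
  have h : ∃ k, nb k < n ∧ n ≤ nb (k + 1) := ⟨k, h1, h2⟩
  have h3 := Classical.choose_spec h
  simp only [dif_pos h]
  generalize Classical.choose h = k' at h3 ⊢
  rcases Nat.lt_trichotomy k' k with hlt | heq | hgt
  · have := hm.monotone (show k' + 1 ≤ k by omega)
    omega
  · exact heq
  · have := hm.monotone (show k + 1 ≤ k' by omega)
    omega

private theorem hrp_dz {K : ℕ} (hK : 2 ≤ K) : 1 / (K : ℝ) ≤ dz (1 / (K : ℝ)) := by
  have hK' : (2 : ℝ) ≤ K := by exact_mod_cast hK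
  have h1 : 1 / (K : ℝ) ≤ 1 / 2 := one_div_le_one_div_of_le (by norm_num) hK'
  have h0 : 0 < 1 / (K : ℝ) := by positivity
  unfold dz
  rcases le_or_gt (round (1 / (K : ℝ))) 0 with hz | hz
  · have hz' : ((round (1 / (K : ℝ)) : ℤ) : ℝ) ≤ 0 := by exact_mod_cast hz
    exact le_trans (by linarith) (le_abs_self _)
  · have hz' : (1 : ℝ) ≤ ((round (1 / (K : ℝ)) : ℤ) : ℝ) := by exact_mod_cast hz
    exact le_trans (by linarith) (neg_le_abs _)

/-- PROOF. `e = min ε 1`; `K ≥ 2` with `1 / K ≤ e / 4`; `δ` with `0 < δ`, `δ < 1 / (2 K)`,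
`δ ≤ e / 8`; so `1 / K + 2 δ ≤ e / 2 < 1`. Blocks: `n_0 = 0`, `n_{k+1} ≥ N0 + 1` with
`n_k ≤ δ n_{k+1}`, `k < K` (e.g. `n_k = R ^ k * (N0 + 1)` for `k ≥ 1`, `R ≥ 1 / δ`). Let
`θ n = - k / K` for `n_k < n ≤ n_{k+1}`, `k < K`; `kron` for `N1 = n_K`, `θ`, and `δ` gives `t`. `t ≠ 0`:
for `n ∈ (n_1, n_2]`, `dz (0 - θ n) = dz (1 / K) = 1 / K > δ`. `B = {x | fract (t x + δ) < 1/K + 2δ}`
(measurable), `G = ∅`, `L = 1 / |t|`; density: `per_scale`. Given `r` let
`k = ⌊K fract (t r)⌋ < K`; for `n_k < n ≤ n_{k+1}` the number `t (r + s n) + δ` is, modulo an integer,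
`(fract (t r) - k / K) + y + δ` with `|y| ≤ δ`, which lies in `[0, 1 / K + 2 δ)`, so `r + s n ∈ B`. So
`hits s B n_{k+1} r ≥ n_{k+1} - n_k ≥ (1 - δ) n_{k+1}`. -/
theorem rprop_of_indep {s : ℕ → ℝ} (h : Indep s) : RProp s := by
  intro ε hε N0
  obtain ⟨K, hK2, hK4⟩ : ∃ K : ℕ, 2 ≤ K ∧ 1 / (K : ℝ) ≤ min ε 1 / 4 := by
    have he : 0 < min ε 1 / 4 := by
      have : 0 < min ε 1 := lt_min hε one_pos
      linarith
    obtain ⟨K, hK⟩ := exists_nat_gt (1 / (min ε 1 / 4))
    refine ⟨max 2 K, le_max_left _ _, ?_⟩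
    have h1 : (K : ℝ) ≤ ((max 2 K : ℕ) : ℝ) := by exact_mod_cast le_max_right _ _
    have hKpos : 0 < 1 / (min ε 1 / 4) := by positivity
    calc 1 / ((max 2 K : ℕ) : ℝ) ≤ 1 / (1 / (min ε 1 / 4)) :=
          one_div_le_one_div_of_le hKpos (by linarith)
      _ = min ε 1 / 4 := one_div_one_div _
  have hKR : (2 : ℝ) ≤ K := by exact_mod_cast hK2
  have hK0 : 0 < 1 / (K : ℝ) := by positivity
  have he0 : 0 < min ε 1 := lt_min hε one_pos
  have he1 : min ε 1 ≤ 1 := min_le_right _ _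
  have heε : min ε 1 ≤ ε := min_le_left _ _
  set e := min ε 1 with hedef
  obtain ⟨δ, hδ0, hδe, hδK⟩ : ∃ δ : ℝ, 0 < δ ∧ δ ≤ e / 8 ∧ δ < 1 / (K : ℝ) := by
    refine ⟨min (e / 8) (1 / (K : ℝ) / 2), lt_min (by linarith) (by linarith), min_le_left _ _, ?_⟩
    exact lt_of_le_of_lt (min_le_right _ _) (by linarith)
  obtain ⟨R, hR⟩ := exists_nat_gt (1 / δ)
  have hRδ : 1 ≤ δ * R := by
    have := (div_lt_iff₀ hδ0).1 hR
    linarith
  have hR1 : (1 : ℝ) ≤ R := by
    have h1 : 1 ≤ 1 / δ := by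
      rw [le_div_iff₀ hδ0]
      linarith
    linarith
  let nb : ℕ → ℕ := fun k => if k = 0 then 0 else R ^ k * (N0 + 1)
  have hnb0 : nb 0 = 0 := by simp [nb]
  have hnbs : ∀ k, nb (k + 1) = R ^ (k + 1) * (N0 + 1) := by intro k; simp [nb]
  have hRN : 1 ≤ R := by exact_mod_cast hR1
  have hnbpos : ∀ k, N0 + 1 ≤ nb (k + 1) := by
    intro k
    rw [hnbs]
    exact Nat.le_mul_of_pos_left _ (Nat.pow_pos hRN)
  have hnbδ : ∀ k, (nb k : ℝ) ≤ δ * nb (k + 1) := by
    intro k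
    rcases Nat.eq_zero_or_pos k with rfl | hk
    · rw [hnb0]
      push_cast
      positivity
    · obtain ⟨j, rfl⟩ := Nat.exists_eq_add_of_le' hk
      rw [hnbs, hnbs]
      push_cast
      have h1 : (0 : ℝ) ≤ (R : ℝ) ^ (j + 1) * ((N0 : ℝ) + 1) := by positivity
      calc (R : ℝ) ^ (j + 1) * ((N0 : ℝ) + 1) = 1 * ((R : ℝ) ^ (j + 1) * ((N0 : ℝ) + 1)) := by ring
        _ ≤ (δ * R) * ((R : ℝ) ^ (j + 1) * ((N0 : ℝ) + 1)) := mul_le_mul_of_nonneg_right hRδ h1
        _ = δ * ((R : ℝ) ^ (j + 1 + 1) * ((N0 : ℝ) + 1)) := by ring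
  have hmono : StrictMono nb := by
    apply strictMono_nat_of_lt_succ
    intro k
    have h1 := hnbδ k
    have h2 : (0 : ℝ) < nb (k + 1) := by
      have := hnbpos k
      exact_mod_cast (by omega : 0 < nb (k + 1))
    have h3 : (nb k : ℝ) < nb (k + 1) := by
      have : δ < 1 := by linarith
      nlinarith
    exact_mod_cast h3
  obtain ⟨idx, hidx⟩ := hrp_idx hmono
  obtain ⟨t, ht⟩ := kron h (nb K) (fun n => -((idx n : ℝ) / K)) hδ0
  have ht0 : t ≠ 0 := by
    rintro rfl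
    have h1 : nb 1 + 1 ≤ nb K :=
      (Nat.succ_le_of_lt (hmono (by norm_num : 1 < 2))).trans (hmono.monotone hK2)
    have h2 := ht (nb 1 + 1) (Finset.mem_Icc.2 ⟨by omega, h1⟩)
    have h3 : idx (nb 1 + 1) = 1 :=
      hidx 1 _ (Nat.lt_succ_self _) (Nat.succ_le_of_lt (hmono (by norm_num)))
    rw [h3] at h2
    have h4 : (0 : ℝ) * s (nb 1 + 1) - -(((1 : ℕ) : ℝ) / K) = 1 / K := by
      push_cast
      ring
    simp only [h4] at h2
    have h5 := hrp_dz hK2
    linarith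
  have htpos : 0 < |t| := abs_pos.2 ht0
  refine ⟨{x | Int.fract (t * x + δ) < 1 / (K : ℝ) + 2 * δ}, ∅, 1 / |t|, nb K, ?_,
    MeasurableSet.empty, by positivity, ?_, ?_, ?_⟩
  · exact measurableSet_lt (measurable_fract.comp ((measurable_const.mul measurable_id).add_const _))
      measurable_const
  · intro a
    refine (per_scale ht0 δ (by positivity) a).trans (ENNReal.ofReal_le_ofReal ?_)
    refine mul_le_mul_of_nonneg_right ?_ (by positivity)
    linarith
  · intro a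
    simp
  · intro r _
    have hf0 : 0 ≤ Int.fract (t * r) := Int.fract_nonneg _
    have hf1 : Int.fract (t * r) < 1 := Int.fract_lt_one _
    set f := Int.fract (t * r) with hf
    set k := ⌊(K : ℝ) * f⌋₊ with hk
    have hKf : 0 ≤ (K : ℝ) * f := by positivity
    have hk1 : (k : ℝ) ≤ K * f := Nat.floor_le hKf
    have hk2 : (K : ℝ) * f < k + 1 := Nat.lt_floor_add_one _
    have hkK : k < K := by
      have h1 : (k : ℝ) < K := by nlinarith
      exact_mod_cast h1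
    have hKpos : (0 : ℝ) < K := by linarith
    have hw0 : 0 ≤ f - (k : ℝ) / K := by
      have : (k : ℝ) / K ≤ f := by
        rw [div_le_iff₀ hKpos]
        linarith
      linarith
    have hw1 : f - (k : ℝ) / K < 1 / K := by
      have : f < ((k : ℝ) + 1) / K := by
        rw [lt_div_iff₀ hKpos]
        linarith
      have h2 : ((k : ℝ) + 1) / K = (k : ℝ) / K + 1 / K := by ring
      linarith
    have hnk : nb (k + 1) ≤ nb K := hmono.monotone (by omega)
    have hpos := hnbpos k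
    refine ⟨nb (k + 1), by omega, by omega, hnk, ?_⟩
    have hin : ∀ m ∈ Finset.Ioc (nb k) (nb (k + 1)),
        r + s m ∈ {x : ℝ | Int.fract (t * x + δ) < 1 / (K : ℝ) + 2 * δ} := by
      intro m hm
      obtain ⟨hm1, hm2⟩ := Finset.mem_Ioc.1 hm
      have h1 := ht m (Finset.mem_Icc.2 ⟨by omega, by omega⟩)
      rw [hidx k m hm1 hm2] at h1
      unfold dz at h1
      set z := round (t * s m - -((k : ℝ) / K)) with hz
      obtain ⟨hy1, hy2⟩ := abs_le.1 h1
      show Int.fract (t * (r + s m) + δ) < 1 / (K : ℝ) + 2 * δ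
      have h2 : t * (r + s m) + δ = (f - (k : ℝ) / K +
          (t * s m - -((k : ℝ) / K) - z) + δ) + ((⌊t * r⌋ + z : ℤ) : ℝ) := by
        have h3 : t * r = ⌊t * r⌋ + f := (Int.floor_add_fract (t * r)).symm
        push_cast
        linarith
      rw [h2, Int.fract_add_intCast]
      have h4 : 0 ≤ f - (k : ℝ) / K + (t * s m - -((k : ℝ) / K) - z) + δ := by linarith
      have h5 : f - (k : ℝ) / K + (t * s m - -((k : ℝ) / K) - z) + δ < 1 / (K : ℝ) + 2 * δ := by
        linarith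
      rw [Int.fract_eq_self.2 ⟨h4, by linarith⟩]
      exact h5
    have hsub : Finset.Ioc (nb k) (nb (k + 1)) ⊆ Finset.Icc 1 (nb (k + 1)) := by
      intro m hm
      obtain ⟨hm1, hm2⟩ := Finset.mem_Ioc.1 hm
      exact Finset.mem_Icc.2 ⟨by omega, hm2⟩
    unfold hits
    calc (1 - ε) * (nb (k + 1) : ℝ) ≤ (nb (k + 1) : ℝ) - nb k := by
          have h1 := hnbδ k
          have h2 : (0 : ℝ) ≤ nb (k + 1) := Nat.cast_nonneg _
          nlinarith
      _ = ∑ m ∈ Finset.Ioc (nb k) (nb (k + 1)), (1 : ℝ) := by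
          rw [Finset.sum_const, Nat.card_Ioc, nsmul_eq_mul, mul_one,
            Nat.cast_sub (hmono.monotone (Nat.le_succ k))]
      _ = ∑ m ∈ Finset.Ioc (nb k) (nb (k + 1)),
          Set.indicator {x : ℝ | Int.fract (t * x + δ) < 1 / (K : ℝ) + 2 * δ} 1 (r + s m) := by
          refine Finset.sum_congr rfl fun m hm => ?_
          rw [Set.indicator_of_mem (hin m hm)]
          rfl
      _ ≤ _ := by
          refine Finset.sum_le_sum_of_subset_of_nonneg hsub fun m _ _ => ?_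
          exact Set.indicator_nonneg (fun _ _ => zero_le_one) _

end MP4ba111
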