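import Pool.Agent.Lib.MP_4ba111_anH.HLin
import Pool.Agent.Lib.MP_4ba111_anH.HRP
import Pool.Agent.Lib.MP_4ba111_anH.HEx
import Pool.Agent.Lib.MP_4ba111_an.Fin

/-! The theorem for the positive exponents. -/

set_option autoImplicit false

open MeasureTheory Filter Topology

namespace MP4ba111

theorem main_HL {α : ℝ} (hα : HL α) : Indep (fun n : ℕ => (n : ℝ) ^ α) ∧
    StrongSweepingOut (fun n : ℕ => (n : ℝ) ^ α) ∧
    ∀ p : ENNReal, UniversallyBad p (fun n : ℕ => (n : ℝ) ^ α) := by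
  have h1 := indep_of_HL hα
  have h2 : StrongSweepingOut (fun n : ℕ => (n : ℝ) ^ α) :=
    sso_of_RProp (fun n hn => by
      have : (0 : ℝ) < n := by exact_mod_cast hn
      positivity) (rprop_of_indep h1)
  exact ⟨h1, h2, fun p => bad_of_sso h2 p⟩

/-- Numbers with the approximation property are irrational.

PROOF. If `α = u / v` then for `a / b ≠ α` we have `|α - a / b| ≥ 1 / (v b)`; take `k ≥ v + 2`:
`exp (- b ^ k) ≤ exp (- b ^ 2) < 1 / b ^ 2 ≤ 1 / (v b)`, as `v ≤ k ≤ b`. -/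
theorem irrational_of_HL {α : ℝ} (hα : HL α) : Irrational α := by
  rintro ⟨q, rfl⟩
  obtain ⟨a, b, hkb, hb1, -, hne, hlt⟩ := hα (q.den + 2)
  have hb : (1 : ℝ) ≤ b := by exact_mod_cast hb1
  have hb0 : (0 : ℝ) < b := by linarith
  have hd : (0 : ℝ) < q.den := by exact_mod_cast q.den_pos
  have hdb : (q.den : ℝ) ≤ b := by
    have : q.den ≤ b := by omega
    exact_mod_cast this
  have hq : (q : ℝ) * q.den = q.num := by
    have := Rat.mul_den_eq_num q
    exact_mod_cast this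
  -- the numerator of the difference is a nonzero integer
  have hz : (q.num * b - a * q.den : ℤ) ≠ 0 := by
    intro h0
    apply hne
    have h1 : (q.num : ℝ) * b - a * q.den = 0 := by exact_mod_cast h0
    rw [eq_div_iff hb0.ne']
    have h2 : ((q : ℝ) * b - a) * q.den = 0 := by
      rw [← h1, ← hq]
      ring
    rcases mul_eq_zero.1 h2 with h3 | h3
    · linarith
    · exact absurd h3 hd.ne'
  have h1 : (1 : ℝ) ≤ |(q.num : ℝ) * b - a * q.den| := by
    have := Int.one_le_abs hz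
    exact_mod_cast this
  have h2 : |(q.num : ℝ) * b - a * q.den| = |(q : ℝ) - (a : ℝ) / b| * (q.den * b) := by
    rw [← abs_of_pos (mul_pos hd hb0), ← abs_mul]
    congr 1
    rw [← hq]
    field_simp
  have h3 : (b : ℝ) ^ 2 ≤ (b : ℝ) ^ (q.den + 2) := pow_le_pow_right₀ hb (by omega)
  have h4 := Real.add_one_le_exp ((b : ℝ) ^ (q.den + 2))
  have h5 : (q.den : ℝ) * b ≤ (b : ℝ) ^ 2 := by nlinarith
  have h6 : Real.exp (-(b : ℝ) ^ (q.den + 2)) * Real.exp ((b : ℝ) ^ (q.den + 2)) = 1 := by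
    rw [← Real.exp_add, neg_add_cancel, Real.exp_zero]
  have h7 : 0 < (q.den : ℝ) * b := mul_pos hd hb0
  have h8 : |(q : ℝ) - (a : ℝ) / b| * (q.den * b) <
      Real.exp (-(b : ℝ) ^ (q.den + 2)) * (q.den * b) := mul_lt_mul_of_pos_right hlt h7
  have h9 : Real.exp (-(b : ℝ) ^ (q.den + 2)) * (q.den * b) ≤
      Real.exp (-(b : ℝ) ^ (q.den + 2)) * Real.exp ((b : ℝ) ^ (q.den + 2)) :=
    mul_le_mul_of_nonneg_left (by linarith) (Real.exp_pos _).le
  rw [h2] at h1
  linarith

end MP4ba111
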