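import Pool.Agent.Lib.MP_4ba111_anH.HDefs

/-! Means of exponentials. -/

set_option autoImplicit false

open MeasureTheory Filter Topology

namespace MP4ba111

/-- `exp (2 π i x)` -/
noncomputable def ee (x : ℝ) : ℂ := Complex.exp (2 * Real.pi * Complex.I * x)

theorem ee_zero : ee 0 = 1 := by simp [ee]

theorem ee_add (x y : ℝ) : ee (x + y) = ee x * ee y := by
  unfold ee
  rw [← Complex.exp_add]
  congr 1
  push_cast
  ring

theorem ee_continuous : Continuous ee := by
  unfold ee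
  fun_prop

/-- PROOF. `‖exp (i y)‖ = 1`. -/
theorem norm_ee (x : ℝ) : ‖ee x‖ = 1 := by
  unfold ee
  have h : (2 * Real.pi * Complex.I * x : ℂ) = ((2 * Real.pi * x : ℝ) : ℂ) * Complex.I := by
    push_cast
    ring
  rw [h, Complex.norm_exp_ofReal_mul_I]

theorem kexp_int {l : ℝ} (hl : l ≠ 0) (φ T : ℝ) :
    ∫ t in (0 : ℝ)..T, ee (l * t + φ) =
      ee φ * ((ee (l * T) - 1) / (2 * Real.pi * Complex.I * l)) := by
  have hc : (2 * Real.pi * Complex.I * l : ℂ) ≠ 0 := by
    have h1 : (Real.pi : ℂ) ≠ 0 := by exact_mod_cast Real.pi_ne_zero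
    have h2 : (l : ℂ) ≠ 0 := by exact_mod_cast hl
    exact mul_ne_zero (mul_ne_zero (mul_ne_zero two_ne_zero h1) Complex.I_ne_zero) h2
  have h1 : ∀ t : ℝ, ee (l * t + φ) =
      ee φ * Complex.exp ((2 * Real.pi * Complex.I * l : ℂ) * t) := by
    intro t
    rw [ee_add, mul_comm]
    congr 1
    unfold ee
    congr 1
    push_cast
    ring
  simp only [h1]
  rw [intervalIntegral.integral_const_mul, integral_exp_mul_complex hc]
  congr 2
  have h2 : Complex.exp ((2 * Real.pi * Complex.I * l : ℂ) * (T : ℝ)) = ee (l * T) := by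
    unfold ee
    congr 1
    push_cast
    ring
  rw [h2]
  simp

/-- PROOF. The integral is `ee φ * (ee (l T) - 1) / (2 π i l)` (`integral_exp_mul_complex`), of norm at
most `1 / (π |l|)`. -/
theorem mean_ee {l : ℝ} (hl : l ≠ 0) (φ : ℝ) :
    Tendsto (fun T : ℝ => (1 / (T : ℂ)) * ∫ t in (0 : ℝ)..T, ee (l * t + φ)) atTop (𝓝 0) := by
  have h0 : Tendsto (fun T : ℝ => |T|⁻¹ * (2 / ‖(2 * Real.pi * Complex.I * l : ℂ)‖)) atTop
      (𝓝 0) := by
    have h1 : Tendsto (fun T : ℝ => |T|⁻¹) atTop (𝓝 0) :=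
      tendsto_inv_atTop_zero.comp tendsto_abs_atTop_atTop
    simpa using h1.mul_const (2 / ‖(2 * Real.pi * Complex.I * l : ℂ)‖)
  refine squeeze_zero_norm (fun T => ?_) h0
  rw [kexp_int hl, norm_mul, norm_mul, norm_ee, one_mul, norm_div, norm_div, norm_one,
    Complex.norm_real, Real.norm_eq_abs, one_div]
  refine mul_le_mul_of_nonneg_left ?_ (by positivity)
  refine div_le_div_of_nonneg_right ?_ (norm_nonneg _)
  calc ‖ee (l * T) - 1‖ ≤ ‖ee (l * T)‖ + ‖(1 : ℂ)‖ := norm_sub_le _ _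
    _ = 2 := by rw [norm_ee, norm_one]; norm_num

/-- PROOF. The mean is constant `ee φ` for `T ≠ 0`. -/
theorem mean_ee_zero (φ : ℝ) :
    Tendsto (fun T : ℝ => (1 / (T : ℂ)) * ∫ t in (0 : ℝ)..T, ee (0 * t + φ)) atTop (𝓝 (ee φ)) := by
  refine Tendsto.congr' ?_ tendsto_const_nhds
  filter_upwards [eventually_gt_atTop (0 : ℝ)] with T hT
  have h1 : (T : ℂ) ≠ 0 := by exact_mod_cast hT.ne'
  simp only [zero_mul, zero_add]
  rw [intervalIntegral.integral_const, sub_zero]
  rw [Complex.real_smul]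
  field_simp

end MP4ba111
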