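import Pool.Agent.Lib.MP_4ba111_anH.KExp

/-! The Fejer kernel. -/

set_option autoImplicit false

open MeasureTheory Filter Topology

namespace MP4ba111

/-- The Fejer kernel. -/
noncomputable def fej (m : ℕ) (x : ℝ) : ℝ := ‖∑ j ∈ Finset.range m, ee (j * x)‖ ^ 2 / m

theorem fej_nonneg (m : ℕ) (x : ℝ) : 0 ≤ fej m x := by
  unfold fej
  positivity

theorem fej_continuous (m : ℕ) : Continuous (fej m) := by
  unfold fej
  have := ee_continuous
  fun_prop

theorem kfej_conj (x : ℝ) : (starRingEnd ℂ) (ee x) = ee (-x) := by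
  unfold ee
  rw [← Complex.exp_conj]
  congr 1
  have h : (2 * Real.pi * Complex.I * x : ℂ) = ((2 * Real.pi * x : ℝ) : ℂ) * Complex.I := by
    push_cast
    ring
  rw [h, map_mul, Complex.conj_ofReal, Complex.conj_I]
  push_cast
  ring

/-- PROOF. `‖S‖ ^ 2 = S * conj S` and `conj (ee y) = ee (-y)`. -/
theorem fej_eq (m : ℕ) (x : ℝ) : ((fej m x : ℝ) : ℂ) =
    (1 / (m : ℂ)) * ∑ p ∈ Finset.range m ×ˢ Finset.range m, ee (((p.1 : ℝ) - (p.2 : ℝ)) * x) := by
  unfold fej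
  push_cast
  rw [← Complex.mul_conj', map_sum, Finset.sum_mul_sum, ← Finset.sum_product', div_eq_mul_inv,
    mul_comm, one_div]
  congr 1
  refine Finset.sum_congr rfl fun p _ => ?_
  rw [kfej_conj, ← ee_add]
  congr 1
  ring

theorem kfej_geom (m : ℕ) (x : ℝ) :
    (ee x - 1) * ∑ j ∈ Finset.range m, ee (j * x) = ee (m * x) - 1 := by
  induction m with
  | zero => simp [ee_zero]
  | succ n ih =>
    rw [Finset.sum_range_succ, mul_add, ih]
    have h : ee (((n + 1 : ℕ) : ℝ) * x) = ee x * ee (n * x) := by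
      rw [← ee_add]
      congr 1
      push_cast
      ring
    rw [h]
    ring

theorem kfej_int (n : ℤ) : ee (n : ℝ) = 1 := by
  unfold ee
  rw [Complex.exp_eq_one_iff]
  refine ⟨n, ?_⟩
  push_cast
  ring

theorem kfej_norm (x : ℝ) : 4 * dz x ≤ ‖ee x - 1‖ := by
  have h1 : ee x = ee (x - round x) := by
    have h2 : ee x = ee ((x - round x) + ((round x : ℤ) : ℝ)) := by
      congr 1
      ring
    rw [h2, ee_add, kfej_int, mul_one]
  have h3 : ee (x - round x) = Complex.exp (Complex.I * ((2 * Real.pi * (x - round x) : ℝ) : ℂ)) := by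
    unfold ee
    congr 1
    push_cast
    ring
  rw [h1, h3, Complex.norm_exp_I_mul_ofReal_sub_one, norm_mul, Real.norm_eq_abs, Real.norm_eq_abs,
    abs_two]
  have h4 : 2 * Real.pi * (x - round x) / 2 = Real.pi * (x - round x) := by ring
  rw [h4]
  have h5 : |Real.pi * (x - round x)| = Real.pi * dz x := by
    unfold dz
    rw [abs_mul, abs_of_pos Real.pi_pos]
  have h6 : dz x ≤ 1 / 2 := by
    unfold dz
    exact abs_sub_round x
  have h7 : |Real.pi * (x - round x)| ≤ Real.pi / 2 := by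
    rw [h5]
    nlinarith [Real.pi_pos]
  have h8 := Real.mul_abs_le_abs_sin h7
  rw [h5] at h8
  have h9 : 2 / Real.pi * (Real.pi * dz x) = 2 * dz x := by
    have := Real.pi_ne_zero
    field_simp
  rw [h9] at h8
  linarith

/-- PROOF. `(ee x - 1) * ∑_{j < m} ee (j x) = ee (m x) - 1` (geometric sum), of norm at most `2`, and
`‖ee x - 1‖ = 2 |sin (π x)| ≥ 4 dz x` (`Real.mul_le_sin` or `Real.mul_abs_le_abs_sin` at
`π (x - round x)`, `|x - round x| ≤ 1/2`). So the sum has norm at most `1 / (2 dz x)`, and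
`fej m x ≤ 1 / (4 m (dz x)^2)`. -/
theorem fej_le {m : ℕ} (hm : 1 ≤ m) {x ε : ℝ} (hε : 0 < ε) (hx : ε < dz x) :
    fej m x ≤ 1 / (4 * m * ε ^ 2) := by
  have hm' : (0 : ℝ) < m := by exact_mod_cast hm
  set S : ℂ := ∑ j ∈ Finset.range m, ee (j * x) with hS
  have h1 : ‖ee x - 1‖ * ‖S‖ ≤ 2 := by
    rw [← norm_mul, hS, kfej_geom]
    calc ‖ee (m * x) - 1‖ ≤ ‖ee (m * x)‖ + ‖(1 : ℂ)‖ := norm_sub_le _ _
      _ = 2 := by rw [norm_ee, norm_one]; norm_num
  have h2 : 4 * ε ≤ ‖ee x - 1‖ := by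
    have := kfej_norm x
    linarith
  have h3 : 2 * ε * ‖S‖ ≤ 1 := by
    have h4 : 4 * ε * ‖S‖ ≤ ‖ee x - 1‖ * ‖S‖ := mul_le_mul_of_nonneg_right h2 (norm_nonneg _)
    linarith
  have h5 : (2 * ε * ‖S‖) ^ 2 ≤ 1 := by
    have h6 : 0 ≤ 2 * ε * ‖S‖ := by positivity
    nlinarith
  have h7 : fej m x = ‖S‖ ^ 2 / m := by
    unfold fej
    rw [hS]
  rw [h7, div_le_div_iff₀ hm' (by positivity)]
  have h8 : ‖S‖ ^ 2 * (4 * m * ε ^ 2) = (2 * ε * ‖S‖) ^ 2 * m := by ring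
  rw [h8]
  exact mul_le_mul_of_nonneg_right h5 hm'.le

end MP4ba111
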