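import Pool.Agent.Lib.MP_4ba111_anH.KFej

/-! Means of products of Fejer kernels. -/

set_option autoImplicit false

open MeasureTheory Filter Topology

namespace MP4ba111

theorem kmean_ee_sum {ι : Type} (s : Finset ι) (f : ι → ℝ) :
    ee (∑ i ∈ s, f i) = ∏ i ∈ s, ee (f i) := by
  classical
  induction s using Finset.induction_on with
  | empty => simp [ee_zero]
  | insert a s ha ih => rw [Finset.sum_insert ha, Finset.prod_insert ha, ee_add, ih]

/-- The product as a trigonometric sum. -/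
theorem kmean_expand (s θ : ℕ → ℝ) (I : Finset ℕ) (m : ℕ) (t : ℝ) :
    ((∏ n ∈ I, fej m (t * s n - θ n) : ℝ) : ℂ) = (1 / (m : ℂ)) ^ I.card *
      ∑ q ∈ Fintype.piFinset (fun _ : I => Finset.range m ×ˢ Finset.range m),
        ee ((∑ n : I, (((q n).1 : ℝ) - ((q n).2 : ℝ)) * s n) * t +
          (-∑ n : I, (((q n).1 : ℝ) - ((q n).2 : ℝ)) * θ n)) := by
  classical
  rw [Complex.ofReal_prod, ← Finset.prod_coe_sort]
  simp only [fej_eq]
  rw [Finset.prod_mul_distrib, Finset.prod_const, Finset.card_univ, Fintype.card_coe,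
    Finset.prod_univ_sum]
  congr 1
  refine Finset.sum_congr rfl fun q _ => ?_
  rw [← kmean_ee_sum]
  congr 1
  rw [Finset.sum_mul, ← Finset.sum_neg_distrib, ← Finset.sum_add_distrib]
  refine Finset.sum_congr rfl fun n _ => ?_
  ring

theorem kmean_term {s : ℕ → ℝ} (h : Indep s) {N : ℕ} {I : Finset ℕ} (hI : I ⊆ Finset.Icc 1 N)
    (θ : ℕ → ℝ) (q : I → ℕ × ℕ) :
    Tendsto (fun T : ℝ => (1 / (T : ℂ)) * ∫ t in (0 : ℝ)..T,
      ee ((∑ n : I, (((q n).1 : ℝ) - ((q n).2 : ℝ)) * s n) * t +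
          (-∑ n : I, (((q n).1 : ℝ) - ((q n).2 : ℝ)) * θ n))) atTop
      (𝓝 (∏ n : I, if (q n).1 = (q n).2 then (1 : ℂ) else 0)) := by
  classical
  by_cases hq : ∀ n : I, (q n).1 = (q n).2
  · have h1 : ∑ n : I, (((q n).1 : ℝ) - ((q n).2 : ℝ)) * s n = 0 :=
      Finset.sum_eq_zero fun n _ => by rw [hq n, sub_self, zero_mul]
    have h2 : ∑ n : I, (((q n).1 : ℝ) - ((q n).2 : ℝ)) * θ n = 0 :=
      Finset.sum_eq_zero fun n _ => by rw [hq n, sub_self, zero_mul]
    have h3 : (∏ n : I, if (q n).1 = (q n).2 then (1 : ℂ) else 0) = 1 :=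
      Finset.prod_eq_one fun n _ => if_pos (hq n)
    rw [h1, h2, h3, neg_zero]
    have h4 := mean_ee_zero 0
    rw [ee_zero] at h4
    exact h4
  · rw [not_forall] at hq
    obtain ⟨n0, hn0⟩ := hq
    have h3 : (∏ n : I, if (q n).1 = (q n).2 then (1 : ℂ) else 0) = 0 :=
      Finset.prod_eq_zero (Finset.mem_univ n0) (if_neg hn0)
    rw [h3]
    refine mean_ee ?_ _
    intro h0
    have h1 := h N (fun n => if hn : n ∈ I then ((q ⟨n, hn⟩).1 : ℤ) - ((q ⟨n, hn⟩).2 : ℤ) else 0) (by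
      rw [← Finset.sum_subset hI]
      · rw [← Finset.sum_coe_sort, ← h0]
        refine Finset.sum_congr rfl fun n _ => ?_
        rw [dif_pos n.2]
        push_cast
        rfl
      · intro n _ hn
        rw [dif_neg hn]
        simp) n0 (hI n0.2)
    rw [dif_pos n0.2] at h1
    apply hn0
    have h2 : (((q n0).1 : ℕ) : ℤ) = (((q n0).2 : ℕ) : ℤ) := by
      have : ((q ⟨(n0 : ℕ), n0.2⟩).1 : ℤ) - ((q ⟨(n0 : ℕ), n0.2⟩).2 : ℤ) = 0 := h1
      exact sub_eq_zero.1 this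
    exact_mod_cast h2

/-- PROOF. By `fej_eq` the product is, as a complex number,
`(1/m)^{|I|} ∑_{p} ee ((∑_{n ∈ I} (p n).1 - (p n).2) s n) t - ∑_{n ∈ I} ((p n).1 - (p n).2) θ n)`, the sum
over all `p ∈ Fintype.piFinset` or `Finset.pi I (fun _ => range m ×ˢ range m)` (`Finset.prod_sum`,
`ee_add`). The mean of the term is `0` if `l = ∑_{n ∈ I} ((p n).1 - (p n).2) s n ≠ 0` (`mean_ee`), and
if `l = 0` then `(p n).1 = (p n).2` for all `n ∈ I` (`h`, with `c n = 0` for `n ∉ I`), and the term is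
`1`. There are `m ^ |I|` such `p`, so the mean is `1`. -/
theorem mean_prod {s : ℕ → ℝ} (h : Indep s) {N : ℕ} {I : Finset ℕ} (hI : I ⊆ Finset.Icc 1 N)
    (θ : ℕ → ℝ) {m : ℕ} (hm : 1 ≤ m) :
    Tendsto (fun T : ℝ => (1 / T) * ∫ t in (0 : ℝ)..T, ∏ n ∈ I, fej m (t * s n - θ n)) atTop
      (𝓝 1) := by
  classical
  have hm0 : (m : ℂ) ≠ 0 := by exact_mod_cast (by omega : m ≠ 0)
  set Q := Fintype.piFinset (fun _ : I => Finset.range m ×ˢ Finset.range m) with hQ
  -- the value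
  have hval : (1 / (m : ℂ)) ^ I.card *
      ∑ q ∈ Q, (∏ n : I, if (q n).1 = (q n).2 then (1 : ℂ) else 0) = 1 := by
    have h1 : ∑ q ∈ Q, (∏ n : I, if (q n).1 = (q n).2 then (1 : ℂ) else 0) =
        ∏ n : I, ∑ p ∈ Finset.range m ×ˢ Finset.range m, if p.1 = p.2 then (1 : ℂ) else 0 := by
      rw [Finset.prod_univ_sum]
    have h2 : ∑ p ∈ Finset.range m ×ˢ Finset.range m, (if p.1 = p.2 then (1 : ℂ) else 0) = m := by
      rw [Finset.sum_product]
      have : ∀ x ∈ Finset.range m, ∑ y ∈ Finset.range m, (if x = y then (1 : ℂ) else 0) = 1 := by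
        intro x hx
        rw [Finset.sum_ite_eq, if_pos hx]
      rw [Finset.sum_congr rfl this]
      simp
    rw [h1, Finset.prod_congr rfl fun n _ => h2, Finset.prod_const, Finset.card_univ,
      Fintype.card_coe, ← mul_pow, one_div, inv_mul_cancel₀ hm0, one_pow]
  -- complex limit
  have hlim : Tendsto (fun T : ℝ => (1 / (m : ℂ)) ^ I.card * ∑ q ∈ Q, ((1 / (T : ℂ)) *
      ∫ t in (0 : ℝ)..T, ee ((∑ n : I, (((q n).1 : ℝ) - ((q n).2 : ℝ)) * s n) * t +
          (-∑ n : I, (((q n).1 : ℝ) - ((q n).2 : ℝ)) * θ n)))) atTop (𝓝 1) := by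
    have h5 := (tendsto_finsetSum Q fun q _ => kmean_term h hI θ q).const_mul
      ((1 / (m : ℂ)) ^ I.card)
    rw [hval] at h5
    exact h5
  have heq : ∀ T : ℝ, (1 / (m : ℂ)) ^ I.card * ∑ q ∈ Q, ((1 / (T : ℂ)) *
      ∫ t in (0 : ℝ)..T, ee ((∑ n : I, (((q n).1 : ℝ) - ((q n).2 : ℝ)) * s n) * t +
          (-∑ n : I, (((q n).1 : ℝ) - ((q n).2 : ℝ)) * θ n))) =
      (((1 / T) * ∫ t in (0 : ℝ)..T, ∏ n ∈ I, fej m (t * s n - θ n) : ℝ) : ℂ) := by
    intro T
    have hc : Continuous ee := ee_continuous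
    rw [Complex.ofReal_mul, ← intervalIntegral.integral_ofReal]
    simp only [kmean_expand]
    rw [intervalIntegral.integral_const_mul, intervalIntegral.integral_finsetSum, ← hQ,
      ← Finset.mul_sum]
    · push_cast
      ring
    · intro q _
      apply Continuous.intervalIntegrable
      fun_prop
  have h3 := (Complex.continuous_re.tendsto (1 : ℂ)).comp hlim
  rw [Complex.one_re] at h3
  refine h3.congr fun T => ?_
  simp only [Function.comp]
  rw [heq T, Complex.ofReal_re]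

end MP4ba111
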