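import Pool.Agent.Lib.MP_4ba111_anH.KMean

/-! Kronecker theorem. -/

set_option autoImplicit false

open MeasureTheory Filter Topology

namespace MP4ba111

private theorem kron_mean_sum {s : ℕ → ℝ} (h : Indep s) (N : ℕ) (θ : ℕ → ℝ) {m : ℕ}
    (hm : 1 ≤ m) :
    Tendsto (fun T : ℝ => (1 / T) * ∫ t in (0 : ℝ)..T,
      ∑ n0 ∈ Finset.Icc 1 N, ∏ n ∈ (Finset.Icc 1 N).erase n0, fej m (t * s n - θ n)) atTop
      (𝓝 (N : ℝ)) := by
  have hc : ∀ I : Finset ℕ, Continuous fun t : ℝ => ∏ n ∈ I, fej m (t * s n - θ n) := by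
    intro I
    refine continuous_finsetProd _ fun n _ => (fej_continuous m).comp ?_
    fun_prop
  have h1 : (fun T : ℝ => (1 / T) * ∫ t in (0 : ℝ)..T,
      ∑ n0 ∈ Finset.Icc 1 N, ∏ n ∈ (Finset.Icc 1 N).erase n0, fej m (t * s n - θ n)) =
      fun T : ℝ => ∑ n0 ∈ Finset.Icc 1 N, (1 / T) * ∫ t in (0 : ℝ)..T,
        ∏ n ∈ (Finset.Icc 1 N).erase n0, fej m (t * s n - θ n) := by
    funext T
    rw [intervalIntegral.integral_finsetSum fun n0 _ => (hc _).intervalIntegrable _ _,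
      Finset.mul_sum]
  rw [h1]
  have h2 : (N : ℝ) = ∑ n0 ∈ Finset.Icc 1 N, (1 : ℝ) := by simp
  rw [h2]
  exact tendsto_finsetSum _ fun n0 _ => mean_prod h (Finset.erase_subset _ _) θ hm

/-- PROOF. Otherwise for every `t` some `n0 ∈ [1, N]` has `ε < dz (t s n0 - θ n0)`, so with `fej_le`,
`fej_nonneg`: `∏_{n ∈ [1, N]} fej m (t s n - θ n) ≤ (1 / (4 m ε^2)) ∑_{n0 ∈ [1, N]} ∏_{n ∈ [1, N], n ≠ n0}
fej m (t s n - θ n)` for all `t`. Take means (`mean_prod` for `Icc 1 N` and for its subsets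
`(Icc 1 N).erase n0`; the functions are continuous): `1 ≤ N / (4 m ε^2)`, false for large `m`. -/
theorem kron {s : ℕ → ℝ} (h : Indep s) (N : ℕ) (θ : ℕ → ℝ) {ε : ℝ} (hε : 0 < ε) :
    ∃ t : ℝ, ∀ n ∈ Finset.Icc 1 N, dz (t * s n - θ n) ≤ ε := by
  by_contra hcon
  have hcon' : ∀ t : ℝ, ∃ n ∈ Finset.Icc 1 N, ε < dz (t * s n - θ n) := by
    intro t
    by_contra hc
    refine hcon ⟨t, fun n hn => ?_⟩
    by_contra hn'
    exact hc ⟨n, hn, not_le.1 hn'⟩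
  obtain ⟨m, hm⟩ := exists_nat_gt ((N : ℝ) / (4 * ε ^ 2))
  have hmpos : (0 : ℝ) < m := lt_of_le_of_lt (by positivity) hm
  have hm1 : 1 ≤ m := by exact_mod_cast hmpos
  have hc : ∀ I : Finset ℕ, Continuous fun t : ℝ => ∏ n ∈ I, fej m (t * s n - θ n) := by
    intro I
    refine continuous_finsetProd _ fun n _ => (fej_continuous m).comp ?_
    fun_prop
  have hptw : ∀ t : ℝ, ∏ n ∈ Finset.Icc 1 N, fej m (t * s n - θ n) ≤
      (1 / (4 * m * ε ^ 2)) *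
        ∑ n0 ∈ Finset.Icc 1 N, ∏ n ∈ (Finset.Icc 1 N).erase n0, fej m (t * s n - θ n) := by
    intro t
    obtain ⟨n0, hn0, hd⟩ := hcon' t
    rw [← Finset.mul_prod_erase _ _ hn0]
    have h1 := fej_le hm1 hε hd
    have h2 : (0 : ℝ) ≤ ∏ n ∈ (Finset.Icc 1 N).erase n0, fej m (t * s n - θ n) :=
      Finset.prod_nonneg fun n _ => fej_nonneg m _
    have h3 : ∏ n ∈ (Finset.Icc 1 N).erase n0, fej m (t * s n - θ n) ≤
        ∑ n0 ∈ Finset.Icc 1 N, ∏ n ∈ (Finset.Icc 1 N).erase n0, fej m (t * s n - θ n) :=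
      Finset.single_le_sum
        (f := fun n0 => ∏ n ∈ (Finset.Icc 1 N).erase n0, fej m (t * s n - θ n))
        (fun n1 _ => Finset.prod_nonneg fun n _ => fej_nonneg m _) hn0
    calc fej m (t * s n0 - θ n0) * ∏ n ∈ (Finset.Icc 1 N).erase n0, fej m (t * s n - θ n)
        ≤ (1 / (4 * m * ε ^ 2)) * ∏ n ∈ (Finset.Icc 1 N).erase n0, fej m (t * s n - θ n) :=
          mul_le_mul_of_nonneg_right h1 h2
      _ ≤ _ := mul_le_mul_of_nonneg_left h3 (by positivity)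
  have hlim1 := mean_prod h (Finset.Subset.refl (Finset.Icc 1 N)) θ hm1
  have hlim2 := (kron_mean_sum h N θ hm1).const_mul (1 / (4 * (m : ℝ) * ε ^ 2))
  have hle : (1 : ℝ) ≤ 1 / (4 * (m : ℝ) * ε ^ 2) * N := by
    refine le_of_tendsto_of_tendsto hlim1 hlim2 ?_
    filter_upwards [eventually_gt_atTop (0 : ℝ)] with T hT
    have hcs : Continuous fun t : ℝ =>
        ∑ n0 ∈ Finset.Icc 1 N, ∏ n ∈ (Finset.Icc 1 N).erase n0, fej m (t * s n - θ n) :=
      continuous_finsetSum _ fun n0 _ => hc _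
    have h4 : ∫ t in (0 : ℝ)..T, ∏ n ∈ Finset.Icc 1 N, fej m (t * s n - θ n) ≤
        ∫ t in (0 : ℝ)..T, (1 / (4 * (m : ℝ) * ε ^ 2)) *
          ∑ n0 ∈ Finset.Icc 1 N, ∏ n ∈ (Finset.Icc 1 N).erase n0, fej m (t * s n - θ n) :=
      intervalIntegral.integral_mono_on hT.le ((hc _).intervalIntegrable _ _)
        ((continuous_const.mul hcs).intervalIntegrable _ _) fun t _ => hptw t
    rw [intervalIntegral.integral_const_mul] at h4
    have h5 : (0 : ℝ) ≤ 1 / T := by positivity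
    calc (1 / T) * ∫ t in (0 : ℝ)..T, ∏ n ∈ Finset.Icc 1 N, fej m (t * s n - θ n)
        ≤ (1 / T) * ((1 / (4 * (m : ℝ) * ε ^ 2)) * ∫ t in (0 : ℝ)..T,
          ∑ n0 ∈ Finset.Icc 1 N, ∏ n ∈ (Finset.Icc 1 N).erase n0, fej m (t * s n - θ n)) :=
          mul_le_mul_of_nonneg_left h4 h5
      _ = _ := by ring
  have h6 : (N : ℝ) < m * (4 * ε ^ 2) := by
    rwa [div_lt_iff₀ (by positivity)] at hm
  have h7 : 1 / (4 * (m : ℝ) * ε ^ 2) * N = N / (m * (4 * ε ^ 2)) := by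
    field_simp
  rw [h7] at hle
  have h8 : (N : ℝ) / (m * (4 * ε ^ 2)) < 1 := by
    rw [div_lt_one (by positivity)]
    exact h6
  linarith

end MP4ba111
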