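import Pool.Agent.Lib.MP_4ba111_anH.HDefs

/-! Conjugates of a sum of radicals. -/

set_option autoImplicit false

open Filter Topology

namespace MP4ba111

open Polynomial

theorem norma_int {b : ℕ} (hb : 1 ≤ b) {x : ℝ} {n : ℕ} (hx : x ^ b = n) : IsIntegral ℚ x := by
  refine ⟨X ^ b - C (n : ℚ), monic_X_pow_sub_C _ (by omega), ?_⟩
  simp [hx]

theorem norma_int_sum {N : ℕ} {b : ℕ} (hb : 1 ≤ b) {y : ℕ → ℝ}
    (hy : ∀ n ∈ Finset.Icc 1 N, y n ^ b = n) (c : ℕ → ℤ) (a : ℕ) :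
    IsIntegral ℚ (∑ n ∈ Finset.Icc 1 N, (c n : ℝ) * y n ^ a) := by
  refine IsIntegral.sum _ fun n hn => ?_
  refine IsIntegral.mul ?_ ((norma_int hb (hy n hn)).pow a)
  have h : ((c n : ℤ) : ℝ) = algebraMap ℚ ℝ (c n : ℚ) := by simp
  rw [h]
  exact isIntegral_algebraMap

/-- PROOF. `K` = the algebraic closure of `ℚ` in `ℝ` (or the field generated by the `y n`), algebraic
over `ℚ`; `z = ψ β` for an embedding `ψ : K →ₐ[ℚ] ℂ`
(`Algebra.IsAlgebraic.range_eval_eq_rootSet_minpoly`). `w n = ψ (y n)`. -/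
theorem conj_form {N : ℕ} {b : ℕ} (hb : 1 ≤ b) {y : ℕ → ℝ}
    (hy : ∀ n ∈ Finset.Icc 1 N, y n ^ b = n) (c : ℕ → ℤ) (a : ℕ) {z : ℂ}
    (hz : aeval z (minpoly ℚ (∑ n ∈ Finset.Icc 1 N, (c n : ℝ) * y n ^ a)) = 0) :
    ∃ w : ℕ → ℂ, (∀ n ∈ Finset.Icc 1 N, w n ^ b = n) ∧
      z = ∑ n ∈ Finset.Icc 1 N, (c n : ℂ) * w n ^ a := by
  classical
  let K := algebraicClosure ℚ ℝ
  have hKalg : Algebra.IsAlgebraic ℚ K := algebraicClosure.isAlgebraic ℚ ℝ
  have hYex : ∀ n, ∃ Y : K, n ∈ Finset.Icc 1 N → (Y : ℝ) = y n := by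
    intro n
    by_cases hn : n ∈ Finset.Icc 1 N
    · exact ⟨⟨y n, norma_int hb (hy n hn)⟩, fun _ => rfl⟩
    · exact ⟨0, fun h => absurd h hn⟩
  choose Y hY using hYex
  set β : K := ∑ n ∈ Finset.Icc 1 N, (c n : K) * Y n ^ a with hβ
  have hβr : (β : ℝ) = ∑ n ∈ Finset.Icc 1 N, (c n : ℝ) * y n ^ a := by
    rw [hβ]
    push_cast
    exact Finset.sum_congr rfl fun n hn => by rw [hY n hn]
  have hmp : minpoly ℚ β = minpoly ℚ (∑ n ∈ Finset.Icc 1 N, (c n : ℝ) * y n ^ a) := by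
    rw [← hβr]
    exact IntermediateField.minpoly_eq β
  have hint : IsIntegral ℚ β := (Algebra.IsAlgebraic.isAlgebraic β).isIntegral
  have hmem : z ∈ (minpoly ℚ β).rootSet ℂ := by
    rw [mem_rootSet]
    exact ⟨minpoly.ne_zero hint, by rw [hmp]; exact hz⟩
  rw [← Algebra.IsAlgebraic.range_eval_eq_rootSet_minpoly ℂ β] at hmem
  obtain ⟨ψ, hψ⟩ := hmem
  refine ⟨fun n => ψ (Y n), fun n hn => ?_, ?_⟩
  · have h1 : Y n ^ b = (n : K) := by
      apply Subtype.ext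
      push_cast
      rw [hY n hn, hy n hn]
    show ψ (Y n) ^ b = n
    rw [← map_pow, h1, map_natCast]
  · rw [← hψ]
    show ψ β = _
    rw [hβ, map_sum]
    refine Finset.sum_congr rfl fun n _ => ?_
    rw [map_mul, map_pow, map_intCast]

/-- PROOF. The degree is the number of complex roots (separable, `ℂ` algebraically closed), and by
`conj_form` the roots are contained in the image of the product of the sets of `b`-th roots of `n`,
`n ∈ [1, N]`, each with at most `b` elements (`Polynomial.card_nthRoots`). -/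
theorem deg_le {N : ℕ} {b : ℕ} (hb : 1 ≤ b) {y : ℕ → ℝ} (hy : ∀ n ∈ Finset.Icc 1 N, y n ^ b = n)
    (c : ℕ → ℤ) (a : ℕ) :
    (minpoly ℚ (∑ n ∈ Finset.Icc 1 N, (c n : ℝ) * y n ^ a)).natDegree ≤ b ^ N := by
  classical
  have hint := norma_int_sum hb hy c a
  set β := ∑ n ∈ Finset.Icc 1 N, (c n : ℝ) * y n ^ a with hβ
  rw [← card_rootSet_eq_natDegree (K := ℂ) (minpoly.irreducible hint).separable
    (IsAlgClosed.splits _)]
  let S : Finset (Finset.Icc 1 N → ℂ) :=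
    Fintype.piFinset fun n : Finset.Icc 1 N => nthRootsFinset b ((n : ℕ) : ℂ)
  let f : (Finset.Icc 1 N → ℂ) → ℂ := fun w => ∑ n : Finset.Icc 1 N, (c n : ℂ) * w n ^ a
  have h1 : (minpoly ℚ β).rootSet ℂ ⊆ ((S.image f : Finset ℂ) : Set ℂ) := by
    intro z hz
    rw [mem_rootSet] at hz
    obtain ⟨w, hw1, hw2⟩ := conj_form hb hy c a hz.2
    rw [Finset.mem_coe, Finset.mem_image]
    refine ⟨fun n => w n, ?_, ?_⟩
    · rw [Fintype.mem_piFinset]
      intro n
      rw [mem_nthRootsFinset (by omega)]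
      exact hw1 n n.2
    · rw [hw2]
      show ∑ n : Finset.Icc 1 N, (c n : ℂ) * w n ^ a = _
      rw [← Finset.sum_coe_sort (Finset.Icc 1 N) (fun n => (c n : ℂ) * w n ^ a)]
  have h2 : Fintype.card ((minpoly ℚ β).rootSet ℂ) ≤ (S.image f).card := by
    rw [← Set.toFinset_card]
    refine Finset.card_le_card fun z hz => ?_
    rw [Set.mem_toFinset] at hz
    exact h1 hz
  refine h2.trans (Finset.card_image_le.trans ?_)
  rw [Fintype.card_piFinset]
  refine (Finset.prod_le_pow_card _ _ b fun n _ => ?_).trans ?_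
  · rw [nthRootsFinset_def]
    exact (Multiset.toFinset_card_le _).trans (card_nthRoots _ _)
  · simp

end MP4ba111
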