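import Pool.Agent.Lib.MP_4ba111_anH.HDefs

/-! The minimal polynomial of a real radical. -/

set_option autoImplicit false

open Filter Topology

namespace MP4ba111

open Polynomial

/-- The absolute value of the product of complex numbers of absolute value `x`. -/
theorem rada_norm_prod {x : ℝ} (s : Multiset ℂ) (h : ∀ z ∈ s, ‖z‖ = x) :
    ‖s.prod‖ = x ^ s.card := by
  induction s using Multiset.induction_on with
  | empty => simp
  | cons a s ih =>
    rw [Multiset.prod_cons, norm_mul, h a (Multiset.mem_cons_self a s),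
      ih fun z hz => h z (Multiset.mem_cons_of_mem hz), Multiset.card_cons, pow_succ, mul_comm]

/-- The power `x ^ deg P` is rational, for `P` a monic divisor of `X ^ b - r`. -/
theorem rada_pow_deg {x : ℝ} (hx : 0 < x) {b : ℕ} (hb : 1 ≤ b) {r : ℚ} (hr : x ^ b = r)
    {P : ℚ[X]} (hP : P.Monic) (hd : P ∣ X ^ b - C r) : ∃ q : ℚ, x ^ P.natDegree = q := by
  have h1 : (P.map (algebraMap ℚ ℂ)).Splits := IsAlgClosed.splits _
  have h2 : (P.map (algebraMap ℚ ℂ)).Monic := hP.map _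
  have h3 := h1.coeff_zero_eq_prod_roots_of_monic h2
  have h4 : ∀ z ∈ (P.map (algebraMap ℚ ℂ)).roots, ‖z‖ = x := by
    intro z hz
    have h5 : (P.map (algebraMap ℚ ℂ)).IsRoot z := Polynomial.isRoot_of_mem_roots hz
    obtain ⟨Q, hQ⟩ := hd
    have h6 : (X ^ b - C r : ℚ[X]).map (algebraMap ℚ ℂ) =
        P.map (algebraMap ℚ ℂ) * Q.map (algebraMap ℚ ℂ) := by
      rw [hQ, Polynomial.map_mul]
    have h7 : ((X ^ b - C r : ℚ[X]).map (algebraMap ℚ ℂ)).eval z = 0 := by
      rw [h6, Polynomial.eval_mul, h5.eq_zero, zero_mul]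
    simp only [Polynomial.map_sub, Polynomial.map_pow, Polynomial.map_X, Polynomial.map_C,
      Polynomial.eval_sub, Polynomial.eval_pow, Polynomial.eval_X, Polynomial.eval_C] at h7
    have h8 : z ^ b = ((x ^ b : ℝ) : ℂ) := by
      rw [sub_eq_zero.1 h7, hr]
      simp
    have h9 : ‖z‖ ^ b = x ^ b := by
      rw [← norm_pow, h8, Complex.norm_real, Real.norm_of_nonneg (by positivity)]
    exact (pow_left_inj₀ (norm_nonneg z) hx.le (by omega)).1 h9
  have h5 := rada_norm_prod _ h4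
  rw [← h1.natDegree_eq_card_roots, Polynomial.natDegree_map] at h5
  refine ⟨|P.coeff 0|, ?_⟩
  rw [← h5]
  have h6 : ‖(P.map (algebraMap ℚ ℂ)).coeff 0‖ = ‖(P.map (algebraMap ℚ ℂ)).roots.prod‖ := by
    rw [h3, norm_mul, norm_pow, norm_neg, norm_one, one_pow, one_mul]
  rw [← h6, Polynomial.coeff_map]
  have h7 : (algebraMap ℚ ℂ) (P.coeff 0) = (((P.coeff 0 : ℚ) : ℝ) : ℂ) := by simp
  rw [h7, Complex.norm_real, Real.norm_eq_abs]
  push_cast
  rfl

/-- PROOF. Let `m ≥ 1` be minimal with `x ^ m` rational (`Nat.find`), `x ^ m = r`; `m ≥ 2`. Let `P` be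
the minimal polynomial of `x` over `ℚ`. All complex roots `z` of `P` are roots of `X ^ b - x ^ b`, so
`‖z‖ = x`; so the constant coefficient of `P`, up to sign the product of the complex roots (with
multiplicity), has absolute value `x ^ deg P`, so `x ^ deg P` is rational (`± coeff`), and
`deg P ≥ m`. As `P ∣ X ^ m - C r` and both are monic with `deg P ≥ m`, they are equal. -/
theorem minpoly_radical {x : ℝ} (hx : 0 < x) {b : ℕ} (hb : 1 ≤ b) {r : ℚ} (hr : x ^ b = r)
    (hirr : ∀ q : ℚ, x ≠ q) : ∃ (m : ℕ) (q : ℚ), 2 ≤ m ∧ minpoly ℚ x = X ^ m - C q := by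
  classical
  have hex : ∃ m : ℕ, 1 ≤ m ∧ ∃ q : ℚ, x ^ m = q := ⟨b, hb, r, hr⟩
  obtain ⟨hm1, q, hq⟩ := Nat.find_spec hex
  have hmin : ∀ k : ℕ, 1 ≤ k → (∃ q : ℚ, x ^ k = q) → Nat.find hex ≤ k :=
    fun k hk1 hk2 => Nat.find_min' hex ⟨hk1, hk2⟩
  have hroot : ∀ (k : ℕ) (q : ℚ), x ^ k = q → aeval x (X ^ k - C q : ℚ[X]) = 0 := by
    intro k q hk
    simp [hk]
  have hint : IsIntegral ℚ x := by
    refine ⟨X ^ b - C r, monic_X_pow_sub_C r (by omega), ?_⟩
    have := hroot b r hr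
    rwa [aeval_def] at this
  have hmon := minpoly.monic hint
  have hpos := minpoly.natDegree_pos hint
  have hle : Nat.find hex ≤ (minpoly ℚ x).natDegree :=
    hmin _ hpos (rada_pow_deg hx hb hr hmon (minpoly.dvd ℚ x (hroot b r hr)))
  have hm2 : 2 ≤ Nat.find hex := by
    by_contra hlt
    have h1 : Nat.find hex = 1 := by omega
    rw [h1, pow_one] at hq
    exact hirr q hq
  refine ⟨Nat.find hex, q, hm2, ?_⟩
  symm
  refine eq_of_monic_of_dvd_of_natDegree_le hmon (monic_X_pow_sub_C q (by omega))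
    (minpoly.dvd ℚ x (hroot _ q hq)) ?_
  rw [natDegree_X_pow_sub_C]
  exact hle

end MP4ba111
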