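import Pool.Agent.Lib.MP_4ba111_anH.RadA

/-! Linear independence of real radicals. -/

set_option autoImplicit false

open Filter Topology

namespace MP4ba111

open Polynomial

/-- PROOF. `Algebra.trace ℚ K y = finrank * (- (minpoly ℚ y).nextCoeff)`
(`trace_eq_finrank_mul_minpoly_nextCoeff`), `minpoly ℚ (y : K) = minpoly ℚ (y : ℝ)`, and the next
coefficient of `X ^ m - C q`, `m ≥ 2`, vanishes. -/
theorem trace_radical (K : IntermediateField ℚ ℝ) [FiniteDimensional ℚ K] (y : K)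
    (hy : 0 < (y : ℝ)) {b : ℕ} (hb : 1 ≤ b) {r : ℚ} (hr : (y : ℝ) ^ b = r)
    (hirr : ∀ q : ℚ, (y : ℝ) ≠ q) : Algebra.trace ℚ K y = 0 := by
  obtain ⟨m, q, hm, hmin⟩ := minpoly_radical hy hb hr hirr
  have h1 : minpoly ℚ y = X ^ m - C q := by
    rw [← hmin]
    exact (minpoly.algebraMap_eq (algebraMap K ℝ).injective y).symm
  have h2 : (X ^ m - C q : ℚ[X]).nextCoeff = 0 := by
    have hdeg : (X ^ m - C q : ℚ[X]).natDegree = m := natDegree_X_pow_sub_C
    rw [nextCoeff_of_natDegree_pos (by omega), hdeg, coeff_sub, coeff_X_pow, coeff_C,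
      if_neg (by omega), if_neg (by omega), sub_zero]
  rw [trace_eq_finrank_mul_minpoly_nextCoeff, h1, h2, neg_zero, mul_zero]

/-- PROOF. Fix `i ∈ I`; divide by `x i`: `c i + ∑_{j ∈ I, j ≠ i} c j (x j / x i) = 0`. Let
`K = ℚ(x j / x i : j ∈ I)`, finite over `ℚ` (each `x j / x i` is a root of `X ^ b - r`;
`IntermediateField.finiteDimensional_adjoin`). The trace of `K` gives `c i * finrank = 0` by
`trace_radical`. -/
theorem radicals {I : Finset ℕ} {x : ℕ → ℝ} (hx : ∀ i ∈ I, 0 < x i) {b : ℕ} (hb : 1 ≤ b)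
    (hr : ∀ i ∈ I, ∃ r : ℚ, x i ^ b = r)
    (hirr : ∀ i ∈ I, ∀ j ∈ I, i ≠ j → ∀ q : ℚ, x i / x j ≠ q) {c : ℕ → ℤ}
    (h0 : ∑ i ∈ I, (c i : ℝ) * x i = 0) : ∀ i ∈ I, c i = 0 := by
  classical
  intro i hi
  have hxi : x i ≠ 0 := (hx i hi).ne'
  -- the quotients are radicals
  have hquot : ∀ j ∈ I, ∃ r : ℚ, (x j / x i) ^ b = r := by
    intro j hj
    obtain ⟨r, hr1⟩ := hr j hj
    obtain ⟨s, hs1⟩ := hr i hi
    exact ⟨r / s, by rw [div_pow, hr1, hs1]; push_cast; rfl⟩
  set S : Set ℝ := (fun j => x j / x i) '' (I : Set ℕ) with hS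
  have hSfin : Finite S := (I.finite_toSet.image _).to_subtype
  have hint : ∀ z ∈ S, IsIntegral ℚ z := by
    rintro z ⟨j, hj, rfl⟩
    obtain ⟨r, hr1⟩ := hquot j hj
    refine ⟨X ^ b - C r, monic_X_pow_sub_C r (by omega), ?_⟩
    simp [hr1]
  set K : IntermediateField ℚ ℝ := IntermediateField.adjoin ℚ S with hK
  have hfd : FiniteDimensional ℚ K := IntermediateField.finiteDimensional_adjoin hint
  have hmem : ∀ j ∈ I, x j / x i ∈ K := fun j hj =>
    IntermediateField.subset_adjoin ℚ S ⟨j, hj, rfl⟩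
  let y : ℕ → K := fun j => if hj : j ∈ I then ⟨x j / x i, hmem j hj⟩ else 0
  have hy : ∀ j ∈ I, ((y j : K) : ℝ) = x j / x i := by
    intro j hj
    simp only [y, dif_pos hj]
  have hsum : ∑ j ∈ I, (c j : ℚ) • y j = 0 := by
    apply Subtype.ext
    have h1 : ((∑ j ∈ I, (c j : ℚ) • y j : K) : ℝ) = ∑ j ∈ I, (c j : ℝ) * (x j / x i) := by
      have h2 : ((∑ j ∈ I, (c j : ℚ) • y j : K) : ℝ) = ∑ j ∈ I, (((c j : ℚ) • y j : K) : ℝ) := by
        exact map_sum (algebraMap K ℝ) _ _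
      rw [h2]
      refine Finset.sum_congr rfl fun j hj => ?_
      have h3 : (((c j : ℚ) • y j : K) : ℝ) = (c j : ℚ) • ((y j : K) : ℝ) := rfl
      rw [h3, hy j hj, Rat.smul_def]
      push_cast
      rfl
    rw [h1]
    have h4 : ∑ j ∈ I, (c j : ℝ) * (x j / x i) = (∑ j ∈ I, (c j : ℝ) * x j) / x i := by
      rw [Finset.sum_div]
      exact Finset.sum_congr rfl fun j _ => by ring
    rw [h4, h0, zero_div]
    rfl
  have htr := congrArg (Algebra.trace ℚ K) hsum
  rw [map_sum, map_zero] at htr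
  have hyi : y i = 1 := by
    apply Subtype.ext
    rw [hy i hi, div_self hxi]
    rfl
  rw [Finset.sum_eq_single i] at htr
  · rw [map_smul, hyi] at htr
    have h5 : Algebra.trace ℚ K (1 : K) = (Module.finrank ℚ K : ℚ) := by
      have h6 := Algebra.trace_algebraMap (S := K) (1 : ℚ)
      rw [map_one] at h6
      rw [h6]
      simp
    rw [h5, smul_eq_mul] at htr
    have hpos : (Module.finrank ℚ K : ℚ) ≠ 0 := by
      exact_mod_cast (Module.finrank_pos (R := ℚ) (M := K)).ne'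
    have h7 := (mul_eq_zero.1 htr).resolve_right hpos
    exact_mod_cast h7
  · intro j hj hji
    obtain ⟨r, hr1⟩ := hquot j hj
    rw [map_smul, trace_radical K (y j) (by rw [hy j hj]; exact div_pos (hx j hj) (hx i hi)) hb
      (by rw [hy j hj]; exact hr1) (fun q => by rw [hy j hj]; exact hirr j hj i hi hji q),
      smul_zero]
  · intro h
    exact absurd hi h

end MP4ba111
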